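import Pool.Agent.Helper76.DL.Defs

/-!
Chain rule for `MvPolynomial (Fin 2) ℝ` and the range of `c`.

PROOF.  `av_deriv`: induction on the polynomial, see `hasDerivAt_ev` in
Pool/Agent/Helper83/SD/LOps.lean.  `cc_mem`: for `r = 1 - e`, `D = (1 - r)² + 2 r (1 - u) ≥ e² > 0`,
so `√D ≥ e`.  `cc_one`: `D = (1 - r)² = e²`.
-/

set_option autoImplicit false

namespace Pool.Agent.Helper76.DL

theorem av_deriv (p : P2) {f g : ℝ → ℝ} {f' g' s : ℝ} (hf : HasDerivAt f f' s)
    (hg : HasDerivAt g g' s) :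
    HasDerivAt (fun r => MvPolynomial.eval ![f r, g r] p)
      (MvPolynomial.eval ![f s, g s] (MvPolynomial.pderiv 0 p) * f' +
        MvPolynomial.eval ![f s, g s] (MvPolynomial.pderiv 1 p) * g') s := by
  induction p using MvPolynomial.induction_on with
  | C c =>
    simp only [MvPolynomial.eval_C, MvPolynomial.pderiv_C, map_zero, zero_mul, add_zero]
    exact hasDerivAt_const _ _
  | add p q hp hq =>
    have := hp.add hq
    refine (this.congr_deriv ?_).congr_of_eventuallyEq ?_
    · rw [map_add, map_add, map_add, map_add]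
      ring
    · exact Filter.Eventually.of_forall fun r => map_add _ _ _
  | mul_X p j hp =>
    fin_cases j
    · have h1 := hp.mul hf
      refine (h1.congr_deriv ?_).congr_of_eventuallyEq ?_
      · simp only [Fin.zero_eta, Fin.isValue, MvPolynomial.pderiv_mul, MvPolynomial.pderiv_X_self,
          map_add, map_mul, MvPolynomial.eval_X, Matrix.cons_val_zero, mul_one]
        rw [MvPolynomial.pderiv_X_of_ne (by decide : (0 : Fin 2) ≠ 1), map_zero]
        ring
      · exact Filter.Eventually.of_forall fun r => by simp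
    · have h1 := hp.mul hg
      refine (h1.congr_deriv ?_).congr_of_eventuallyEq ?_
      · simp only [Fin.mk_one, Fin.isValue, MvPolynomial.pderiv_mul, MvPolynomial.pderiv_X_self,
          map_add, map_mul, MvPolynomial.eval_X, Matrix.cons_val_one, mul_one]
        rw [MvPolynomial.pderiv_X_of_ne (by decide : (1 : Fin 2) ≠ 0), map_zero]
        simp only [Matrix.cons_val_fin_one]
        ring
      · exact Filter.Eventually.of_forall fun r => by simp

/-- `0 < c ≤ 1`, and `c = 1` at `u = 1` -/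
theorem cc_mem {u : ℝ} (hu : |u| ≤ 1) {e : ℝ} (h0 : 0 < e) (h1 : e < 1) :
    0 < cc (1 - e) u ∧ cc (1 - e) u ≤ 1 := by
  have hu1 : u ≤ 1 := (abs_le.1 hu).2
  have hD : e ^ 2 ≤ DD (1 - e) u := by
    unfold DD
    nlinarith [mul_nonneg (sub_nonneg.2 h1.le) (sub_nonneg.2 hu1)]
  have hsq : e ≤ Real.sqrt (DD (1 - e) u) := Real.le_sqrt_of_sq_le hD
  have hpos : 0 < Real.sqrt (DD (1 - e) u) := lt_of_lt_of_le h0 hsq
  unfold cc
  rw [sub_sub_cancel]
  exact ⟨div_pos h0 hpos, (div_le_one hpos).2 hsq⟩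

theorem cc_one {e : ℝ} (h0 : 0 < e) : cc (1 - e) 1 = 1 := by
  have hD : DD (1 - e) 1 = e ^ 2 := by
    unfold DD
    ring
  unfold cc
  rw [hD, Real.sqrt_sq h0.le, sub_sub_cancel, div_self h0.ne']

end Pool.Agent.Helper76.DL
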