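import Pool.Agent.Helper76.DL.Main

/-!
The linear programming bound for cubature formulas with nonnegative weights (the proof of
`lp_bound` by helper5 with weights).
-/

set_option autoImplicit false

open MeasureTheory

namespace Pool.Agent.Helper76.DL

open Pool.Agent.Helper83.SD

/-- cubature formula on the sphere with nodes `X` and nonnegative weights `w`, exact for all
polynomials of degree at most `t` -/
def IsCub (t : ℕ) (X : Finset E3) (w : E3 → ℝ) : Prop :=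
  (∀ x ∈ X, ‖x‖ = 1) ∧ (∀ x ∈ X, 0 ≤ w x) ∧
    ∀ p : MvPolynomial (Fin 3) ℝ, p.totalDegree ≤ t →
      ∑ x ∈ X, w x * MvPolynomial.eval (fun i => x i) p =
        ⨍ y : Metric.sphere (0 : E3) 1, MvPolynomial.eval (fun i => (y : E3) i) p
          ∂((volume : Measure E3).toSphere)

theorem cub_zero {t : ℕ} {X : Finset E3} {w : E3 → ℝ} (hX : IsCub t X w) {x : E3} (hx : ‖x‖ = 1)
    {k : ℕ} (hk : 1 ≤ k) (hkt : k ≤ t) : ∑ y ∈ X, w y * PL k (inner ℝ x y) = 0 := by
  have h1 := hX.2.2 (Q x k) ((Q_hom x k).totalDegree_le.trans hkt)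
  have h2 : ∑ y ∈ X, w y * PL k (inner ℝ x y) = mu (Q x k) := by
    rw [show mu (Q x k) = _ from h1.symm]
    refine Finset.sum_congr rfl fun y hy => ?_
    rw [← Q_ev x (hX.1 y hy) k]
    rfl
  rw [h2, Q_mean hx hk]

theorem cub_one {t : ℕ} {X : Finset E3} {w : E3 → ℝ} (hX : IsCub t X w) : ∑ y ∈ X, w y = 1 := by
  have h1 := hX.2.2 (MvPolynomial.C 1) (by rw [MvPolynomial.totalDegree_C]; exact Nat.zero_le t)
  have h2 : mu (MvPolynomial.C 1) = 1 := mu_C 1
  have h3 : ∑ y ∈ X, w y = mu (MvPolynomial.C 1) := by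
    rw [show mu (MvPolynomial.C 1) = _ from h1.symm]
    simp
  rw [h3, h2]

theorem lp_bound_w (M : ℕ) (hM : 0 < M) (p : ℕ → ℝ) (y0 κ : ℝ) (hy : 0 < y0) (hp : 0 < p 0)
    (hneg : ∀ y : ℝ, y0 ≤ y → ∑ m ∈ Finset.range M, p m * y ^ m ≤ 0)
    (hH : ∀ x : ℝ, 0 ≤ x → x ≤ 1 → 0 < ∑ m ∈ Finset.range M, p m * av m x 0)
    (hκ : κ * (p 0 * y0 ^ 2) < ∑ m ∈ Finset.range M, p m * av m 1 0) :
    ∃ T : ℕ, ∀ t : ℕ, T ≤ t → ∀ (X : Finset E3) (w : E3 → ℝ), IsCub t X w →
      κ * (t : ℝ) ^ 2 ≤ (X.card : ℝ) := by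
  rcases lt_or_ge κ 0 with hκ0 | hκ0
  · refine ⟨0, fun t _ X w _ => ?_⟩
    have h1 : κ * (t : ℝ) ^ 2 ≤ 0 := mul_nonpos_of_nonpos_of_nonneg hκ0.le (sq_nonneg _)
    exact h1.trans (Nat.cast_nonneg _)
  set H : ℝ := ∑ m ∈ Finset.range M, p m * av m 1 0 with hHdef
  obtain ⟨e0, he0, hlim⟩ := lim_pos M p (H - κ * (p 0 * y0 ^ 2)) (sub_pos.2 hκ) hH
  obtain ⟨T, hT⟩ := exists_nat_gt (max (y0 / e0) y0)
  refine ⟨T, fun t ht X w hX => ?_⟩
  have htT : (T : ℝ) ≤ t := by exact_mod_cast ht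
  have ht1 : y0 / e0 < (t : ℝ) + 1 := by
    have := (le_max_left (y0 / e0) y0).trans_lt hT
    linarith
  have ht2 : y0 < (t : ℝ) + 1 := by
    have := (le_max_right (y0 / e0) y0).trans_lt hT
    linarith
  have htp : (0 : ℝ) < (t : ℝ) + 1 := by positivity
  set e : ℝ := y0 / ((t : ℝ) + 1) with he
  have hepos : 0 < e := div_pos hy htp
  have hee0 : e ≤ e0 := by
    rw [he, div_le_iff₀ htp]
    rw [div_lt_iff₀ he0] at ht1
    linarith
  have he1 : e < 1 := by rwa [he, div_lt_one htp]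
  have hr0 : (0 : ℝ) ≤ 1 - e := by linarith
  have hr1 : (1 : ℝ) - e < 1 := by linarith
  obtain ⟨hpos, hge⟩ := hlim e hepos hee0
  obtain ⟨hXn, hw, -⟩ := id hX
  have hw1 := cub_one hX
  -- the function `F`
  set F : ℝ → ℝ := fun u => ∑ m ∈ Finset.range M, p m * e ^ m * FF m (1 - e) u with hF
  have hFe : ∀ u : ℝ, |u| ≤ 1 → e ^ 2 * F u =
      cc (1 - e) u ^ 3 * ∑ m ∈ Finset.range M, p m * av m (cc (1 - e) u ^ 2) e := by
    intro u hu
    rw [hF]
    simp only
    rw [Finset.mul_sum, Finset.mul_sum]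
    refine Finset.sum_congr rfl fun m _ => ?_
    have h := FF_eq hu (PL_abs_le hu) m hepos he1
    calc e ^ 2 * (p m * e ^ m * FF m (1 - e) u) = p m * (e ^ (m + 2) * FF m (1 - e) u) := by ring
      _ = _ := by rw [h]; ring
  have hFnn : ∀ u : ℝ, |u| ≤ 1 → 0 ≤ F u := by
    intro u hu
    have h1 := hFe u hu
    obtain ⟨hc0, hc1⟩ := cc_mem hu hepos he1
    have h2 := hpos (cc (1 - e) u ^ 2) (sq_nonneg _) (pow_le_one₀ hc0.le hc1)
    have h3 : 0 ≤ e ^ 2 * F u := by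
      rw [h1]
      exact mul_nonneg (pow_nonneg hc0.le 3) h2.le
    exact nonneg_of_mul_nonneg_right h3 (by positivity)
  have hF1 : κ * (p 0 * y0 ^ 2) ≤ e ^ 2 * F 1 := by
    have h1 := hFe 1 (by rw [abs_one])
    rw [cc_one hepos, one_pow, one_pow, one_mul] at h1
    rw [h1]
    linarith
  -- the double sum
  set S : ℕ → ℝ := fun k => ∑ x ∈ X, ∑ y ∈ X, w x * w y * PL k (inner ℝ x y) with hS
  set q : ℕ → ℝ := fun k => ∑ m ∈ Finset.range M, p m * (e * k) ^ m with hq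
  have hser : ∀ x ∈ X, ∀ y ∈ X,
      Summable (fun k : ℕ => (2 * (k : ℝ) + 1) * q k * (1 - e) ^ k * PL k (inner ℝ x y)) ∧
      F (inner ℝ x y) =
        ∑' k : ℕ, (2 * (k : ℝ) + 1) * q k * (1 - e) ^ k * PL k (inner ℝ x y) := by
    intro x hx y hy'
    exact Main_series M p e hr0 hr1 (PL_abs_le (Main_abs (hXn x hx) (hXn y hy')))
  have hterm : ∀ k : ℕ, (2 * (k : ℝ) + 1) * q k * (1 - e) ^ k * S k =
      ∑ x ∈ X, ∑ y ∈ X, w x * w y *
        ((2 * (k : ℝ) + 1) * q k * (1 - e) ^ k * PL k (inner ℝ x y)) := by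
    intro k
    rw [hS]
    simp only
    rw [Finset.mul_sum]
    refine Finset.sum_congr rfl fun x _ => ?_
    rw [Finset.mul_sum]
    refine Finset.sum_congr rfl fun y _ => ?_
    ring
  have hsum : Summable (fun k : ℕ => (2 * (k : ℝ) + 1) * q k * (1 - e) ^ k * S k) := by
    simp only [hterm]
    exact summable_sum fun x hx => summable_sum fun y hy' => (hser x hx y hy').1.mul_left _
  have htot : ∑ x ∈ X, ∑ y ∈ X, w x * w y * F (inner ℝ x y) =
      ∑' k : ℕ, (2 * (k : ℝ) + 1) * q k * (1 - e) ^ k * S k := by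
    simp only [hterm]
    rw [Summable.tsum_finsetSum fun x hx =>
      summable_sum fun y hy' => (hser x hx y hy').1.mul_left _]
    refine Finset.sum_congr rfl fun x hx => ?_
    rw [Summable.tsum_finsetSum fun y hy' => (hser x hx y hy').1.mul_left _]
    refine Finset.sum_congr rfl fun y hy' => ?_
    rw [(hser x hx y hy').2, tsum_mul_left]
  -- lower bound
  have hlow : (∑ x ∈ X, w x ^ 2) * F 1 ≤ ∑ x ∈ X, ∑ y ∈ X, w x * w y * F (inner ℝ x y) := by
    rw [Finset.sum_mul]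
    refine Finset.sum_le_sum fun x hx => ?_
    have h1 : F (inner ℝ x x) = F 1 := by
      rw [real_inner_self_eq_norm_sq, hXn x hx, one_pow]
    have h2 : w x ^ 2 * F 1 = w x * w x * F (inner ℝ x x) := by rw [h1]; ring
    rw [h2]
    exact Finset.single_le_sum (f := fun y => w x * w y * F (inner ℝ x y))
      (fun y hy' => mul_nonneg (mul_nonneg (hw x hx) (hw y hy'))
        (hFnn _ (Main_abs (hXn x hx) (hXn y hy')))) hx
  -- upper bound
  have hS0 : S 0 = 1 := by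
    simp only [hS, PL, mul_one]
    rw [← Finset.sum_mul_sum, hw1, one_mul]
  have hq0 : q 0 = p 0 := by
    simp only [hq, Nat.cast_zero, mul_zero]
    rw [Finset.sum_eq_single 0]
    · simp
    · intro m _ hm
      rw [zero_pow hm, mul_zero]
    · intro h
      exact absurd (Finset.mem_range.2 hM) h
  have hupp : ∑' k : ℕ, (2 * (k : ℝ) + 1) * q k * (1 - e) ^ k * S k ≤
      p 0 := by
    rw [hsum.tsum_eq_zero_add]
    have h1 : (2 * ((0 : ℕ) : ℝ) + 1) * q 0 * (1 - e) ^ 0 * S 0 = p 0 := by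
      rw [hS0, hq0]
      simp
    rw [h1]
    have h2 : ∑' k : ℕ, (2 * ((k + 1 : ℕ) : ℝ) + 1) * q (k + 1) * (1 - e) ^ (k + 1) * S (k + 1)
        ≤ 0 := by
      refine tsum_nonpos fun k => ?_
      rcases Nat.lt_or_ge t (k + 1) with hk | hk
      · have h3 : q (k + 1) ≤ 0 := by
          apply hneg
          rw [he]
          have h4 : ((t : ℝ) + 1) ≤ ((k + 1 : ℕ) : ℝ) := by exact_mod_cast hk
          rw [div_mul_eq_mul_div, le_div_iff₀ htp]
          exact mul_le_mul_of_nonneg_left h4 hy.le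
        have h5 : 0 ≤ S (k + 1) := by
          exact pd X w (fun x : E3 => x) hXn (k + 1)
        have h7 : 0 ≤ (2 * ((k + 1 : ℕ) : ℝ) + 1) := by positivity
        have h8 : 0 ≤ (1 - e) ^ (k + 1) := pow_nonneg hr0 _
        have h9 : (2 * ((k + 1 : ℕ) : ℝ) + 1) * q (k + 1) * (1 - e) ^ (k + 1) * S (k + 1) =
            q (k + 1) * ((2 * ((k + 1 : ℕ) : ℝ) + 1) * (1 - e) ^ (k + 1) * S (k + 1)) := by ring
        rw [h9]
        exact mul_nonpos_of_nonpos_of_nonneg h3 (mul_nonneg (mul_nonneg h7 h8) h5)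
      · have h3 : S (k + 1) = 0 := by
          rw [hS]
          simp only
          refine Finset.sum_eq_zero fun x hx => ?_
          have h10 := cub_zero hX (hXn x hx) (Nat.succ_le_succ (Nat.zero_le k)) hk
          calc ∑ y ∈ X, w x * w y * PL (k + 1) (inner ℝ x y)
              = w x * ∑ y ∈ X, w y * PL (k + 1) (inner ℝ x y) := by
                rw [Finset.mul_sum]
                exact Finset.sum_congr rfl fun y _ => by ring
            _ = 0 := by rw [h10, mul_zero]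
        rw [h3, mul_zero]
    linarith
  -- conclusion
  have hXne : X.Nonempty := by
    rcases X.eq_empty_or_nonempty with h | h
    · rw [h, Finset.sum_empty] at hw1
      exact absurd hw1 zero_ne_one
    · exact h
  have hN : (0 : ℝ) < X.card := by exact_mod_cast hXne.card_pos
  have hcs : (1 : ℝ) ≤ X.card * ∑ x ∈ X, w x ^ 2 := by
    have := sq_sum_le_card_mul_sum_sq (s := X) (f := w)
    rw [hw1] at this
    linarith
  have hF10 : 0 ≤ F 1 := hFnn 1 (by rw [abs_one])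
  have h2 : F 1 ≤ p 0 * X.card := by
    have h1 := hlow.trans (htot.le.trans hupp)
    calc F 1 = 1 * F 1 := by ring
      _ ≤ (X.card * ∑ x ∈ X, w x ^ 2) * F 1 := mul_le_mul_of_nonneg_right hcs hF10
      _ = X.card * ((∑ x ∈ X, w x ^ 2) * F 1) := by ring
      _ ≤ X.card * p 0 := mul_le_mul_of_nonneg_left h1 hN.le
      _ = p 0 * X.card := by ring
  have h3 : κ * (p 0 * y0 ^ 2) ≤ e ^ 2 * (p 0 * X.card) :=
    hF1.trans (mul_le_mul_of_nonneg_left h2 (sq_nonneg _))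
  have h4 : e ^ 2 * ((t : ℝ) + 1) ^ 2 = y0 ^ 2 := by
    rw [← mul_pow, he, div_mul_cancel₀ _ htp.ne']
  have h5 : κ * ((t : ℝ) + 1) ^ 2 ≤ X.card := by
    have h6 : (p 0 * e ^ 2) * (κ * ((t : ℝ) + 1) ^ 2) ≤ (p 0 * e ^ 2) * X.card := by
      calc (p 0 * e ^ 2) * (κ * ((t : ℝ) + 1) ^ 2) = κ * (p 0 * (e ^ 2 * ((t : ℝ) + 1) ^ 2)) := by
            ring
        _ = κ * (p 0 * y0 ^ 2) := by rw [h4]
        _ ≤ e ^ 2 * (p 0 * X.card) := h3
        _ = (p 0 * e ^ 2) * X.card := by ring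
    exact le_of_mul_le_mul_left h6 (by positivity)
  refine le_trans (mul_le_mul_of_nonneg_left ?_ hκ0) h5
  exact pow_le_pow_left₀ (Nat.cast_nonneg t) (by linarith) 2

end Pool.Agent.Helper76.DL
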