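import Pool.Agent.Helper76.DL.Data
import Pool.Agent.Helper76.DL.MainW

/-!
The certificate applied: `N ≥ 0.275662 t²`.
-/

set_option autoImplicit false

namespace Pool.Agent.Helper76.DL

open Pool.Agent.Helper83.SD Pool.Agent.Helper76.LPB

/-- pairing of a coefficient list with a sequence -/
noncomputable def dotL (z : ℕ → ℝ) : ℕ → List ℤ → ℝ
  | _, [] => 0
  | k, c :: L => (c : ℝ) * z k + dotL z (k + 1) L

theorem dotL_eq (z : ℕ → ℝ) (L : List ℤ) (k : ℕ) :
    dotL z k L = ∑ m ∈ Finset.range L.length, ((L.getD m 0 : ℤ) : ℝ) * z (k + m) := by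
  induction L generalizing k with
  | nil => simp [dotL]
  | cons c L ih =>
    rw [dotL, ih, List.length_cons, Finset.sum_range_succ']
    simp only [List.getD_cons_zero, List.getD_cons_succ, Nat.add_zero]
    rw [add_comm]
    congr 1
    refine Finset.sum_congr rfl fun m _ => ?_
    rw [show k + 1 + m = k + (m + 1) by ring]

theorem dotL_pow (y : ℝ) (L : List ℤ) (k : ℕ) :
    dotL (fun m => y ^ m) k L = y ^ k * evL L y := by
  induction L generalizing k with
  | nil => simp [dotL, evL]
  | cons c L ih => rw [dotL, ih, evL_cons]; ring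

theorem evL_mulX (a : ℤ) (L : List ℤ) (x : ℝ) : evL (mulX a L) x = (a + x) * evL L x := by
  rw [mulX, evL_addP, evL_smulP, evL_cons]; push_cast; ring

theorem evL_mulM (L : List ℤ) (x : ℝ) : evL (mulM L) x = (x - 1) * evL L x := by
  rw [mulM, evL_addP, evL_smulP, evL_cons]; push_cast; ring

theorem evL_shiftL (a : ℤ) (L : List ℤ) (x : ℝ) : evL (shiftL a L) x = evL L (x + a) := by
  induction L with
  | nil => rfl
  | cons c L ih =>
    rw [shiftL, evL_addP, evL_mulX, ih, evL_cons, evL_cons, evL_nil]; ring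

/-- derivative of `evL` -/
noncomputable def dvL : List ℤ → ℝ → ℝ
  | [], _ => 0
  | _ :: L, x => evL L x + x * dvL L x

theorem hasDerivAt_evL (L : List ℤ) (x : ℝ) : HasDerivAt (fun y => evL L y) (dvL L x) x := by
  induction L with
  | nil => exact hasDerivAt_const x _
  | cons c L ih =>
    have h := ((hasDerivAt_id x).mul ih).const_add (c : ℝ)
    refine (h.congr_deriv ?_).congr_of_eventuallyEq (Filter.Eventually.of_forall fun y => ?_)
    · simp [dvL]
    · simp [evL]

theorem evL_xderL (L : List ℤ) (n : ℤ) (x : ℝ) :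
    evL (xderL n L) x = n * evL L x + x * dvL L x := by
  induction L generalizing n with
  | nil => simp [xderL, evL, dvL]
  | cons c L ih => rw [xderL, evL_cons, ih, evL_cons, dvL]; push_cast; ring

theorem bstep_eq (m : ℕ) (b : List ℤ) (hb : ∀ x : ℝ, evL b x = av m x 0) (x : ℝ) :
    evL (bstep m b) x = av (m + 1) x 0 := by
  have h1 := av_deriv (am m) (hasDerivAt_id x) (hasDerivAt_const x (0 : ℝ))
  have h2 : HasDerivAt (fun y => evL b y) (dvL b x) x := hasDerivAt_evL b x
  have e : (fun y => evL b y) = fun r => MvPolynomial.eval ![id r, (0 : ℝ)] (am m) := by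
    funext y; exact hb y
  rw [e] at h2
  have h3 := h2.unique h1
  rw [bstep, evL_addP, evL_smulP, evL_mulM, evL_addP, evL_smulP, evL_smulP, evL_xderL, h3, hb]
  simp only [av, am, map_sub, map_mul, map_add, map_one, map_ofNat, MvPolynomial.eval_C,
    MvPolynomial.eval_X, id, Matrix.cons_val_zero, Matrix.cons_val_one]
  push_cast
  ring

theorem comb_eq (L : List ℤ) (m : ℕ) (b : List ℤ) (hb : ∀ x : ℝ, evL b x = av m x 0) (x : ℝ) :
    evL (comb m b L) x = dotL (fun j => av j x 0) m L := by
  induction L generalizing m b with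
  | nil => rfl
  | cons c L ih =>
    rw [comb, evL_addP, evL_smulP, hb, dotL]
    congr 1
    have := ih (m + 1) (bstep m b) (bstep_eq m b hb)
    push_cast at this
    exact this

theorem evL_powL (n : ℕ) (s : ℝ) : evL (powL n) s = (1 + s) ^ n := by
  induction n with
  | zero => simp [powL, evL]
  | succ n ih => rw [powL, evL_mulX, ih]; push_cast; ring

theorem evL_homL (L : List ℤ) {s x : ℝ} (hx : (1 + s) * x = 1) :
    (1 + s) * evL (homL L) s = (1 + s) ^ L.length * evL L x := by
  induction L with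
  | nil => simp [homL, evL]
  | cons c L ih =>
    rw [homL, evL_addP, evL_smulP, evL_powL, mul_add, ih, evL_cons, List.length_cons, pow_succ]
    linear_combination (-(1 + s) ^ L.length * evL L x) * hx

theorem evL_zero (L : List ℤ) : evL L 0 = ((L.headD 0 : ℤ) : ℝ) := by
  cases L with
  | nil => simp [evL]
  | cons c L => simp [evL]

/-- sum of the entries -/
def sumL : List ℤ → ℤ
  | [] => 0
  | c :: L => c + sumL L

theorem evL_one (L : List ℤ) : evL L 1 = ((sumL L : ℤ) : ℝ) := by
  induction L with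
  | nil => simp [evL, sumL]
  | cons c L ih => rw [evL_cons, ih, sumL]; push_cast; ring

theorem checkH0 : (0 : ℤ) < HL.headD 0 := by decide +kernel

theorem checkp0 : (0 : ℤ) < pL.getD 0 0 := by decide +kernel

theorem checkM : 0 < pL.length := by decide +kernel

theorem checkK : 275662 * (pL.getD 0 0 * 196) < 1000000 * sumL HL := by decide +kernel

theorem two_eq (x : ℝ) : evL [2] x = av 0 x 0 := by
  simp [evL, av, am]

theorem HL_eq (x : ℝ) : evL HL x =
    ∑ m ∈ Finset.range pL.length, ((pL.getD m 0 : ℤ) : ℝ) * av m x 0 := by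
  have h := comb_eq pL 0 [2] two_eq x
  rw [dotL_eq] at h
  rw [HL]
  simpa using h

theorem HL_pos {x : ℝ} (h0 : 0 ≤ x) (h1 : x ≤ 1) : 0 < evL HL x := by
  rcases h0.eq_or_lt with h | h
  · rw [← h, evL_zero]
    exact_mod_cast checkH0
  · have hs : 0 ≤ 1 / x - 1 := by
      rw [sub_nonneg, le_div_iff₀ h]; linarith
    have h2 := sosOK_nonneg checkH hs
    rw [evL_addP] at h2
    have h3 : (1 + (1 / x - 1)) * x = 1 := by field_simp; ring
    have h4 := evL_homL HL h3
    have h5 : 0 < 1 + (1 / x - 1) := by linarith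
    have h6 : 1 ≤ evL (homL HL) (1 / x - 1) := by
      have : evL [-1] (1 / x - 1) = -1 := by simp [evL]
      linarith
    have h7 : 0 < (1 + (1 / x - 1)) ^ HL.length * evL HL x := by
      rw [← h4]; exact mul_pos h5 (by linarith)
    exact (mul_pos_iff_of_pos_left (pow_pos h5 _)).1 h7

theorem final : ∃ T : ℕ, ∀ t : ℕ, T ≤ t → ∀ (X : Finset E3) (w : E3 → ℝ), IsCub t X w →
    (0.275662 : ℝ) * (t : ℝ) ^ 2 ≤ (X.card : ℝ) := by
  have hp : (0 : ℝ) < ((pL.getD 0 0 : ℤ) : ℝ) := by exact_mod_cast checkp0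
  refine lp_bound_w pL.length checkM (fun m => ((pL.getD m 0 : ℤ) : ℝ)) 14 0.275662 (by norm_num)
    hp ?_ ?_ ?_
  · intro y hy
    have h := dotL_pow y pL 0
    rw [dotL_eq] at h
    simp only [zero_add, pow_zero, one_mul] at h
    rw [h, pL, evL_smulP, evL_shiftL]
    have h2 := sosOK_nonneg checkP (x := y + ((-14 : ℤ) : ℝ)) (by push_cast; linarith)
    push_cast at h2 ⊢
    linarith
  · intro x h0 h1
    rw [← HL_eq]
    exact HL_pos h0 h1
  · have h := HL_eq 1
    rw [evL_one] at h
    rw [← h]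
    have h2 : ((275662 * (pL.getD 0 0 * 196) : ℤ) : ℝ) < ((1000000 * sumL HL : ℤ) : ℝ) := by
      exact_mod_cast checkK
    push_cast at h2
    have e : (0.275662 : ℝ) = 275662 / 1000000 := by norm_num
    rw [e]
    linarith

end Pool.Agent.Helper76.DL
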