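import Pool.Agent.Helper83.SD.LOps
import Pool.Agent.Helper83.SD.Meas

/-!
Project DL (MP_a1e37a_co): every spherical `t`-design on the 2-sphere has at least
`κ t²` points, `t` large.  Definitions.
-/

set_option autoImplicit false

open MeasureTheory

namespace Pool.Agent.Helper76.DL

open Pool.Agent.Helper83.SD

/-- values of the Legendre polynomials -/
noncomputable def PL : ℕ → ℝ → ℝ
  | 0, _ => 1
  | 1, u => u
  | (k + 2), u => ((2 * (k : ℝ) + 3) * u * PL (k + 1) u - ((k : ℝ) + 1) * PL k u) / ((k : ℝ) + 2)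

/-- the linear form `y ↦ x · y` -/
noncomputable def lin (x : E3) : Poly := ∑ i, MvPolynomial.C (x i) * MvPolynomial.X i

/-- `|y|²` -/
noncomputable def rsq : Poly := ∑ i, (MvPolynomial.X i : Poly) ^ 2

/-- the Laplacian -/
noncomputable def lap (p : Poly) : Poly := ∑ i, MvPolynomial.pderiv i (MvPolynomial.pderiv i p)

/-- derivative in the direction `x` -/
noncomputable def dir (x : E3) (p : Poly) : Poly :=
  ∑ i, MvPolynomial.C (x i) * MvPolynomial.pderiv i p

/-- zonal harmonics: `Q x k` restricted to the sphere is `y ↦ P_k (x · y)` if `‖x‖ = 1` -/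
noncomputable def Q (x : E3) : ℕ → Poly
  | 0 => 1
  | 1 => lin x
  | (k + 2) => MvPolynomial.C (((k : ℝ) + 2)⁻¹) *
      (MvPolynomial.C (2 * (k : ℝ) + 3) * (lin x * Q x (k + 1))
        - MvPolynomial.C ((k : ℝ) + 1) * (rsq * Q x k))

/-- spherical `t`-designs, the definition of the problem -/
def IsDesign (t : ℕ) (X : Finset E3) : Prop :=
  X.Nonempty ∧ (∀ x ∈ X, ‖x‖ = 1) ∧
    ∀ p : MvPolynomial (Fin 3) ℝ, p.totalDegree ≤ t →
      (X.card : ℝ)⁻¹ * ∑ x ∈ X, MvPolynomial.eval (fun i => x i) p =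
        ⨍ y : Metric.sphere (0 : E3) 1, MvPolynomial.eval (fun i => (y : E3) i) p
          ∂((volume : Measure E3).toSphere)

/-- the Fischer form -/
noncomputable def fs (p q : Poly) : ℝ :=
  ∑ s ∈ p.support, ((∏ i, (s i).factorial : ℕ) : ℝ) * (p.coeff s * q.coeff s)

/-- `D = 1 - 2 r u + r²` -/
def DD (r u : ℝ) : ℝ := 1 - 2 * r * u + r ^ 2

/-- `∑ (2k+1) k^m r^k P_k(u)` -/
noncomputable def FF (m : ℕ) (r u : ℝ) : ℝ :=
  ∑' k : ℕ, (2 * (k : ℝ) + 1) * (k : ℝ) ^ m * r ^ k * PL k u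

/-- `c = (1 - r) / √D` -/
noncomputable def cc (r u : ℝ) : ℝ := (1 - r) / Real.sqrt (DD r u)

abbrev P2 := MvPolynomial (Fin 2) ℝ

/-- the polynomials `a_m (x, ε)`, `x = X 0`, `ε = X 1` -/
noncomputable def am : ℕ → P2
  | 0 => 2 - MvPolynomial.X 1
  | (m + 1) => MvPolynomial.C ((m : ℝ) + 2) * ((1 - MvPolynomial.X 1) * am m)
      - (1 - MvPolynomial.X 0) * ((1 - MvPolynomial.C (1 / 2) * MvPolynomial.X 1) *
          (3 * am m + 2 * (MvPolynomial.X 0 * MvPolynomial.pderiv 0 (am m))))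
      - MvPolynomial.X 1 * ((1 - MvPolynomial.X 1) * MvPolynomial.pderiv 1 (am m))

/-- value of `a_m` -/
noncomputable def av (m : ℕ) (x e : ℝ) : ℝ := MvPolynomial.eval ![x, e] (am m)

end Pool.Agent.Helper76.DL
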