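import Pool.Agent.Helper76.DL.Har

/-!
The Fischer form.

PROOF.  `fs` is bilinear (write it as a sum over any finset containing the support), and
`fs (X i * p) q = fs p (pderiv i q)` (check on monomials: `coeff s (pderiv i q) =
coeff (s + single i 1) q * (s i + 1)`, `(s + single i 1)! = (s i + 1) s!`).
`fs_repr`: `fs (Q x k) h = (∏_{j<k} (2j+1)) * ev h x` for `h` homogeneous of degree `k` with
`lap h = 0`: induction on `k` (two steps), from the recursion
`(k+2) fs Q_{k+2} h = (2k+3) fs Q_{k+1} (dir x h) - (k+1) fs Q_k (lap h)`, `dir x h` is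
homogeneous of degree `k+1` and harmonic, and `ev (dir x h) x = (k+2) ev h x` (Euler,
`IsHomogeneous.sum_X_mul_pderiv`; no condition on `‖x‖` is needed here).
-/

set_option autoImplicit false

namespace Pool.Agent.Helper76.DL

open Pool.Agent.Helper83.SD

/-- the weight `s!` -/
private noncomputable def wt (s : Fin 3 →₀ ℕ) : ℝ := ((∏ i, (s i).factorial : ℕ) : ℝ)

private theorem fs_eq_sum (p q : Poly) (T : Finset (Fin 3 →₀ ℕ)) (h : p.support ⊆ T) :
    fs p q = ∑ s ∈ T, wt s * (p.coeff s * q.coeff s) := by
  unfold fs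
  refine Finset.sum_subset h ?_
  intro s _ hs
  rw [MvPolynomial.notMem_support_iff] at hs
  rw [hs, zero_mul, mul_zero]

private theorem fs_add_left (p p' q : Poly) : fs (p + p') q = fs p q + fs p' q := by
  classical
  rw [fs_eq_sum (p + p') q (p.support ∪ p'.support) MvPolynomial.support_add,
    fs_eq_sum p q (p.support ∪ p'.support) Finset.subset_union_left,
    fs_eq_sum p' q (p.support ∪ p'.support) Finset.subset_union_right, ← Finset.sum_add_distrib]
  refine Finset.sum_congr rfl fun s _ => ?_
  rw [MvPolynomial.coeff_add]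
  ring

private theorem fs_C_left (c : ℝ) (p q : Poly) : fs (MvPolynomial.C c * p) q = c * fs p q := by
  rw [fs_eq_sum (MvPolynomial.C c * p) q p.support, fs_eq_sum p q p.support subset_rfl,
    Finset.mul_sum]
  · refine Finset.sum_congr rfl fun s _ => ?_
    rw [MvPolynomial.coeff_C_mul]
    ring
  · intro s hs
    rw [MvPolynomial.mem_support_iff, MvPolynomial.coeff_C_mul] at hs
    rw [MvPolynomial.mem_support_iff]
    exact right_ne_zero_of_mul hs

private theorem fs_zero_left (q : Poly) : fs 0 q = 0 := by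
  unfold fs
  simp

private theorem fs_sub_left (p p' q : Poly) : fs (p - p') q = fs p q - fs p' q := by
  have h1 : p - p' = p + MvPolynomial.C (-1) * p' := by
    rw [map_neg, map_one]; ring
  rw [h1, fs_add_left, fs_C_left]
  ring

private theorem fs_sum_left {ι : Type*} (S : Finset ι) (f : ι → Poly) (q : Poly) :
    fs (∑ i ∈ S, f i) q = ∑ i ∈ S, fs (f i) q := by
  classical
  induction S using Finset.induction_on with
  | empty => rw [Finset.sum_empty, Finset.sum_empty, fs_zero_left]
  | insert a S ha ih => rw [Finset.sum_insert ha, Finset.sum_insert ha, fs_add_left, ih]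

private theorem fs_add_right (p q q' : Poly) : fs p (q + q') = fs p q + fs p q' := by
  unfold fs
  rw [← Finset.sum_add_distrib]
  refine Finset.sum_congr rfl fun s _ => ?_
  rw [MvPolynomial.coeff_add]
  ring

private theorem fs_C_right (c : ℝ) (p q : Poly) : fs p (MvPolynomial.C c * q) = c * fs p q := by
  unfold fs
  rw [Finset.mul_sum]
  refine Finset.sum_congr rfl fun s _ => ?_
  rw [MvPolynomial.coeff_C_mul]
  ring

private theorem fs_zero_right (p : Poly) : fs p 0 = 0 := by
  unfold fs
  simp

private theorem fs_sum_right {ι : Type*} (S : Finset ι) (f : ι → Poly) (p : Poly) :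
    fs p (∑ i ∈ S, f i) = ∑ i ∈ S, fs p (f i) := by
  classical
  induction S using Finset.induction_on with
  | empty => rw [Finset.sum_empty, Finset.sum_empty, fs_zero_right]
  | insert a S ha ih => rw [Finset.sum_insert ha, Finset.sum_insert ha, fs_add_right, ih]

private theorem wt_add (s : Fin 3 →₀ ℕ) (i : Fin 3) :
    wt (s + Finsupp.single i 1) = ((s i : ℝ) + 1) * wt s := by
  have h1 : ∏ j ∈ Finset.univ.erase i, ((s + Finsupp.single i 1 : Fin 3 →₀ ℕ) j).factorial =
      ∏ j ∈ Finset.univ.erase i, (s j).factorial := by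
    refine Finset.prod_congr rfl fun j hj => ?_
    have hji : i ≠ j := fun h => (Finset.mem_erase.mp hj).1 h.symm
    rw [Finsupp.add_apply, Finsupp.single_apply, if_neg hji, add_zero]
  have h2 : ∏ j, ((s + Finsupp.single i 1 : Fin 3 →₀ ℕ) j).factorial = (s i + 1) * ∏ j, (s j).factorial := by
    rw [← Finset.mul_prod_erase Finset.univ (fun j => ((s + Finsupp.single i 1 : Fin 3 →₀ ℕ) j).factorial)
      (Finset.mem_univ i), ← Finset.mul_prod_erase Finset.univ (fun j => (s j).factorial)
      (Finset.mem_univ i), h1]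
    simp only [Finsupp.add_apply, Finsupp.single_eq_same, Nat.factorial_succ]
    ring
  unfold wt
  rw [h2]
  push_cast
  ring

theorem fs_nonneg (p : Poly) : 0 ≤ fs p p := by
  unfold fs
  refine Finset.sum_nonneg fun s _ => ?_
  exact mul_nonneg (Nat.cast_nonneg _) (mul_self_nonneg _)

private theorem fs_monomial (s : Fin 3 →₀ ℕ) (a : ℝ) (q : Poly) :
    fs (MvPolynomial.monomial s a) q = wt s * (a * q.coeff s) := by
  rw [fs_eq_sum _ q {s} MvPolynomial.support_monomial_subset, Finset.sum_singleton,
    MvPolynomial.coeff_monomial, if_pos rfl]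

theorem fs_X_mul (i : Fin 3) (p q : Poly) :
    fs (MvPolynomial.X i * p) q = fs p (MvPolynomial.pderiv i q) := by
  induction p using MvPolynomial.induction_on' with
  | monomial s a =>
    rw [mul_comm, MvPolynomial.X, MvPolynomial.monomial_mul, fs_monomial,
      fs_monomial, wt_add, MvPolynomial.coeff_pderiv]
    ring
  | add f g ih1 ih2 =>
    rw [mul_add, fs_add_left, fs_add_left, ih1, ih2]

private theorem fs_lin (x : E3) (p q : Poly) : fs (lin x * p) q = fs p (dir x q) := by
  unfold lin dir
  rw [Finset.sum_mul, fs_sum_left, fs_sum_right]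
  refine Finset.sum_congr rfl fun i _ => ?_
  rw [mul_assoc, fs_C_left, fs_X_mul, fs_C_right]

private theorem fs_rsq (p q : Poly) : fs (rsq * p) q = fs p (lap q) := by
  unfold rsq lap
  rw [Finset.sum_mul, fs_sum_left, fs_sum_right]
  refine Finset.sum_congr rfl fun i _ => ?_
  rw [pow_two, mul_assoc, fs_X_mul, fs_X_mul]

private theorem lap_dir (x : E3) (p : Poly) : lap (dir x p) = dir x (lap p) := by
  unfold lap dir
  simp only [map_sum, Finset.mul_sum, MvPolynomial.pderiv_C_mul]
  rw [Finset.sum_comm]
  refine Finset.sum_congr rfl fun i _ => ?_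
  refine Finset.sum_congr rfl fun j _ => ?_
  rw [pd_comm j i p, pd_comm j i]

private theorem dir_hom (x : E3) {k : ℕ} {h : Poly} (hh : h.IsHomogeneous (k + 1)) :
    (dir x h).IsHomogeneous k := by
  unfold dir
  refine MvPolynomial.IsHomogeneous.sum _ _ _ fun i _ => ?_
  have h1 := (MvPolynomial.isHomogeneous_C (Fin 3) (x i)).mul (hh.pderiv (i := i))
  have h2 : 0 + (k + 1 - 1) = k := by omega
  rwa [h2] at h1

private theorem ev_dir (x : E3) {k : ℕ} {h : Poly} (hh : h.IsHomogeneous k) :
    ev (dir x h) x = k * ev h x := by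
  have e1 : ∑ i, MvPolynomial.X i * MvPolynomial.pderiv i h = MvPolynomial.C (k : ℝ) * h := by
    rw [hh.sum_X_mul_pderiv, nsmul_eq_mul]
    simp
  have e2 := congrArg (fun p => ev p x) e1
  simp only [ev_sum, ev_mul, ev_X, ev_C] at e2
  unfold dir
  simp only [ev_sum, ev_mul, ev_C]
  exact e2

private theorem fs_one {h : Poly} (hh : h.IsHomogeneous 0) (x : E3) : fs 1 h = ev h x := by
  rw [← MvPolynomial.totalDegree_zero_iff_isHomogeneous, MvPolynomial.totalDegree_eq_zero_iff_eq_C] at hh
  have h1 : (1 : Poly) = MvPolynomial.monomial 0 1 := rfl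
  rw [h1, fs_monomial]
  conv_rhs => rw [hh]
  rw [ev_C]
  simp [wt]

theorem fs_repr (x : E3) (k : ℕ) (h : Poly) (hh : h.IsHomogeneous k) (hl : lap h = 0) :
    fs (Q x k) h = (∏ j ∈ Finset.range k, (2 * (j : ℝ) + 1)) * ev h x := by
  induction k using Nat.twoStepInduction generalizing h with
  | zero =>
    rw [Finset.prod_range_zero, one_mul]
    exact fs_one hh x
  | one =>
    have h1 : Q x 1 = lin x * 1 := by rw [mul_one]; rfl
    have h2 := ev_dir x hh
    rw [h1, fs_lin, fs_one (dir_hom x hh) x, h2]
    simp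
  | more k ih1 ih2 =>
    have hd : (dir x h).IsHomogeneous (k + 1) := dir_hom x hh
    have hl2 : lap (dir x h) = 0 := by
      rw [lap_dir, hl]
      simp [dir]
    have h1 := ih2 (dir x h) hd hl2
    have h2 := ev_dir x hh
    have hk : ((k : ℝ) + 2) ≠ 0 := by positivity
    show fs (MvPolynomial.C (((k : ℝ) + 2)⁻¹) *
      (MvPolynomial.C (2 * (k : ℝ) + 3) * (lin x * Q x (k + 1))
        - MvPolynomial.C ((k : ℝ) + 1) * (rsq * Q x k))) h = _
    rw [fs_C_left, fs_sub_left, fs_C_left, fs_C_left, fs_lin, fs_rsq, hl, fs_zero_right, h1, h2,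
      Finset.prod_range_succ _ (k + 1)]
    push_cast
    field_simp
    ring

end Pool.Agent.Helper76.DL
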