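import Pool.Agent.Helper76.DL.Defs

/-!
Zonal harmonics.

PROOF (all by two-step induction, `‖x‖ = 1`).
`Q_hom`: clear.  `Q_dir`: `dir x` is a derivation, `dir x (lin x) = C ‖x‖² = 1`,
`dir x rsq = 2 lin x`; from the recursion
`(k+2) dir Q_{k+2} = (2k+3)(Q_{k+1} + ℓ dir Q_{k+1}) - (k+1)(2 ℓ Q_k + rsq dir Q_k)`, with
`dir Q_{k+1} = (k+1) Q_k`, `dir Q_k = k Q_{k-1}` this is
`(2k+3) Q_{k+1} + (k+1) [(2k+1) ℓ Q_k - k rsq Q_{k-1}] = (2k+3) Q_{k+1} + (k+1)² Q_{k+1}
= (k+2)² Q_{k+1}`.
`Q_lap`: `lap (ℓ p) = ℓ lap p + 2 dir p`, and for `p` homogeneous of degree `k`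
`lap (rsq p) = rsq lap p + (4 k + 6) p` (Euler: `IsHomogeneous.sum_X_mul_pderiv`), so
`(k+2) lap Q_{k+2} = 2 (2k+3) dir Q_{k+1} - (k+1)(4k+6) Q_k = 0`.
`Q_ev`: `ev (lin x) y = inner x y`, `ev rsq y = 1`.
`Q_mean`: `sum_Lr_Lr (Q_hom)` with `Q_lap` gives `∑ a, Lr a (Lr a Q) = - C (k (k+1)) * Q`,
`mu_Lr` gives mean zero of the left side.
`design_zero`: the design property for `p = Q x k` (degree `≤ k ≤ t`), whose mean is `mu (Q x k)`.
-/

set_option autoImplicit false

namespace Pool.Agent.Helper76.DL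

open Pool.Agent.Helper83.SD

private theorem pd_lin (x : E3) (i : Fin 3) :
    MvPolynomial.pderiv i (lin x) = MvPolynomial.C (x i) := by
  fin_cases i <;>
    simp [lin, Fin.sum_univ_three, MvPolynomial.pderiv_C_mul, MvPolynomial.pderiv_X,
      Pi.single_apply]

private theorem pd_rsq (i : Fin 3) :
    MvPolynomial.pderiv i rsq = 2 * MvPolynomial.X i := by
  fin_cases i <;>
    simp [rsq, Fin.sum_univ_three, MvPolynomial.pderiv_pow, MvPolynomial.pderiv_X,
      Pi.single_apply]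

private theorem sum_sq {x : E3} (hx : ‖x‖ = 1) : ∑ i, x i ^ 2 = 1 := by
  have h := EuclideanSpace.norm_sq_eq x
  rw [hx] at h
  simpa using h.symm

private theorem dir_mul (x : E3) (p q : Poly) : dir x (p * q) = dir x p * q + p * dir x q := by
  simp only [dir, MvPolynomial.pderiv_mul, Fin.sum_univ_three]
  ring

private theorem dir_sub (x : E3) (p q : Poly) : dir x (p - q) = dir x p - dir x q := by
  simp only [dir, map_sub, Fin.sum_univ_three]
  ring

private theorem dir_C_mul (x : E3) (a : ℝ) (p : Poly) :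
    dir x (MvPolynomial.C a * p) = MvPolynomial.C a * dir x p := by
  simp only [dir, MvPolynomial.pderiv_C_mul, MvPolynomial.smul_eq_C_mul, Fin.sum_univ_three]
  ring

private theorem dir_lin {x : E3} (hx : ‖x‖ = 1) : dir x (lin x) = 1 := by
  simp only [dir, pd_lin, ← map_mul]
  rw [← map_sum]
  have h : ∑ i, x i * x i = 1 := by
    rw [← sum_sq hx]
    exact Finset.sum_congr rfl fun i _ => by ring
  rw [h, map_one]

private theorem dir_rsq (x : E3) : dir x rsq = 2 * lin x := by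
  simp only [dir, pd_rsq, lin, Fin.sum_univ_three]
  ring

private theorem lap_lin (x : E3) (p : Poly) :
    lap (lin x * p) = lin x * lap p + 2 * dir x p := by
  simp only [lap, dir, MvPolynomial.pderiv_mul, map_add, pd_lin, MvPolynomial.pderiv_C_mul,
    MvPolynomial.pderiv_C, MvPolynomial.smul_eq_C_mul, Fin.sum_univ_three]
  ring

private theorem pd_two (i : Fin 3) : MvPolynomial.pderiv i (2 : Poly) = 0 := by
  have h : (2 : Poly) = MvPolynomial.C (2 : ℝ) := (map_ofNat _ 2).symm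
  rw [h]
  exact MvPolynomial.pderiv_C

private theorem pd_rsq_mul (i : Fin 3) (p : Poly) :
    MvPolynomial.pderiv i (MvPolynomial.pderiv i (rsq * p)) =
      2 * p + 4 * MvPolynomial.X i * MvPolynomial.pderiv i p +
        rsq * MvPolynomial.pderiv i (MvPolynomial.pderiv i p) := by
  rw [MvPolynomial.pderiv_mul, pd_rsq, map_add, MvPolynomial.pderiv_mul,
    MvPolynomial.pderiv_mul, MvPolynomial.pderiv_mul, pd_rsq, pd_two,
    MvPolynomial.pderiv_X_self]
  ring

private theorem lap_rsq {p : Poly} {k : ℕ} (hp : p.IsHomogeneous k) :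
    lap (rsq * p) = rsq * lap p + MvPolynomial.C (4 * (k : ℝ) + 6) * p := by
  have h := hp.sum_X_mul_pderiv
  rw [Fin.sum_univ_three, nsmul_eq_mul] at h
  have h3 : (MvPolynomial.C (4 * (k : ℝ) + 6) : Poly) = 4 * (k : Poly) + 6 := by
    rw [map_add, map_mul, map_ofNat, map_ofNat, map_natCast]
  simp only [lap, pd_rsq_mul, Fin.sum_univ_three]
  rw [h3]
  linear_combination 4 * h

private theorem lap_sub (p q : Poly) : lap (p - q) = lap p - lap q := by
  simp only [lap, map_sub, Fin.sum_univ_three]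
  ring

private theorem lap_C_mul (a : ℝ) (p : Poly) :
    lap (MvPolynomial.C a * p) = MvPolynomial.C a * lap p := by
  simp only [lap, MvPolynomial.pderiv_C_mul, MvPolynomial.smul_eq_C_mul, Fin.sum_univ_three]
  ring

private theorem Q_rec (x : E3) (k : ℕ) : MvPolynomial.C ((k : ℝ) + 2) * Q x (k + 2) =
    MvPolynomial.C (2 * (k : ℝ) + 3) * (lin x * Q x (k + 1))
      - MvPolynomial.C ((k : ℝ) + 1) * (rsq * Q x k) := by
  have h : ((k : ℝ) + 2) * ((k : ℝ) + 2)⁻¹ = 1 := mul_inv_cancel₀ (by positivity)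
  rw [Q, ← mul_assoc, ← map_mul, h, map_one, one_mul]

private theorem C_ne {a : ℝ} (ha : a ≠ 0) : (MvPolynomial.C a : Poly) ≠ 0 := by
  intro h
  exact ha (MvPolynomial.C_eq_zero.1 h)

private theorem lin_hom (x : E3) : (lin x).IsHomogeneous 1 := by
  refine MvPolynomial.IsHomogeneous.sum _ _ _ fun i _ => ?_
  exact (MvPolynomial.isHomogeneous_C _ _).mul (MvPolynomial.isHomogeneous_X _ _)

private theorem rsq_hom : rsq.IsHomogeneous 2 := by
  refine MvPolynomial.IsHomogeneous.sum _ _ _ fun i _ => ?_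
  exact (MvPolynomial.isHomogeneous_X ℝ i).pow 2

theorem Q_hom (x : E3) (k : ℕ) : (Q x k).IsHomogeneous k := by
  induction k using Nat.twoStepInduction with
  | zero => exact MvPolynomial.isHomogeneous_one _ _
  | one => exact lin_hom x
  | more k h0 h1 =>
    rw [Q]
    have e1 : (MvPolynomial.C (2 * (k : ℝ) + 3) * (lin x * Q x (k + 1))).IsHomogeneous (k + 2) := by
      have := (MvPolynomial.isHomogeneous_C (Fin 3) (2 * (k : ℝ) + 3)).mul ((lin_hom x).mul h1)
      rwa [show 0 + (1 + (k + 1)) = k + 2 by omega] at this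
    have e2 : (MvPolynomial.C ((k : ℝ) + 1) * (rsq * Q x k)).IsHomogeneous (k + 2) := by
      have := (MvPolynomial.isHomogeneous_C (Fin 3) ((k : ℝ) + 1)).mul (rsq_hom.mul h0)
      rwa [show 0 + (2 + k) = k + 2 by omega] at this
    have := (MvPolynomial.isHomogeneous_C (Fin 3) (((k : ℝ) + 2)⁻¹)).mul (e1.sub e2)
    rwa [zero_add] at this

theorem Q_dir {x : E3} (hx : ‖x‖ = 1) (k : ℕ) :
    dir x (Q x (k + 1)) = MvPolynomial.C ((k : ℝ) + 1) * Q x k := by
  have hQ0 : dir x (Q x 0) = 0 := by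
    simp [Q, dir]
  induction k using Nat.twoStepInduction with
  | zero =>
    have e : Q x (0 + 1) = lin x := rfl
    rw [e, dir_lin hx]
    simp [Q]
  | one =>
    have h := congrArg (dir x) (Q_rec x 0)
    rw [dir_sub, dir_C_mul, dir_C_mul, dir_C_mul, dir_mul, dir_mul, hQ0, dir_rsq] at h
    have e : Q x (0 + 1) = lin x := rfl
    have e0 : Q x 0 = 1 := rfl
    have e1 : Q x 1 = lin x := rfl
    rw [e, dir_lin hx, e0] at h
    rw [e1]
    have c2 : (MvPolynomial.C (((0 : ℕ) : ℝ) + 2) : Poly) = 2 := by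
      rw [Nat.cast_zero, zero_add, map_ofNat]
    have c3 : (MvPolynomial.C (2 * ((0 : ℕ) : ℝ) + 3) : Poly) = 3 := by
      rw [Nat.cast_zero, mul_zero, zero_add, map_ofNat]
    have c1 : (MvPolynomial.C (((0 : ℕ) : ℝ) + 1) : Poly) = 1 := by
      rw [Nat.cast_zero, zero_add, map_one]
    have c4 : (MvPolynomial.C (((1 : ℕ) : ℝ) + 1) : Poly) = 2 := by
      rw [Nat.cast_one, one_add_one_eq_two, map_ofNat]
    rw [c1, c2, c3] at h
    rw [c4]
    have h2 : (2 : Poly) ≠ 0 := by
      rw [← c2]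
      exact C_ne (by norm_num)
    refine mul_left_cancel₀ h2 ?_
    rw [show (1 : ℕ) + 1 = 0 + 2 by omega, h]
    ring
  | more k h0 h1 =>
    have h := congrArg (dir x) (Q_rec x (k + 1))
    have hr := Q_rec x k
    rw [dir_sub, dir_C_mul, dir_C_mul, dir_C_mul, dir_mul, dir_mul, dir_rsq, dir_lin hx,
      show k + 1 + 1 = (k + 1) + 1 from rfl, h1, h0] at h
    have hk3 : (MvPolynomial.C (((k : ℝ)) + 3) : Poly) ≠ 0 := C_ne (by positivity)
    refine mul_left_cancel₀ hk3 ?_
    have c0 : ∀ (a b : ℝ), (MvPolynomial.C (a + b) : Poly) = MvPolynomial.C a + MvPolynomial.C b :=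
      fun a b => map_add _ a b
    have cm : ∀ (a b : ℝ), (MvPolynomial.C (a * b) : Poly) = MvPolynomial.C a * MvPolynomial.C b :=
      fun a b => map_mul _ a b
    have c1 : (MvPolynomial.C (1 : ℝ) : Poly) = 1 := map_one _
    have c2 : (MvPolynomial.C (2 : ℝ) : Poly) = 2 := map_ofNat _ 2
    have c3 : (MvPolynomial.C (3 : ℝ) : Poly) = 3 := map_ofNat _ 3
    push_cast at h hr ⊢
    simp only [c0, cm, c1, c2, c3] at h hr ⊢
    rw [show k + 2 + 1 = k + 1 + 2 by omega]
    have h' := h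
    linear_combination h' - (MvPolynomial.C (k : ℝ) + 2) * hr

theorem Q_lap {x : E3} (hx : ‖x‖ = 1) (k : ℕ) : lap (Q x k) = 0 := by
  induction k using Nat.twoStepInduction with
  | zero => simp [Q, lap]
  | one =>
    have e : Q x 1 = lin x := rfl
    rw [e]
    simp only [lap, pd_lin, MvPolynomial.pderiv_C, Finset.sum_const_zero]
  | more k h0 h1 =>
    have h := congrArg lap (Q_rec x k)
    rw [lap_sub, lap_C_mul, lap_C_mul, lap_C_mul, lap_lin, lap_rsq (Q_hom x k), h0, h1,
      Q_dir hx] at h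
    have hk : (MvPolynomial.C (((k : ℝ)) + 2) : Poly) ≠ 0 := C_ne (by positivity)
    refine mul_left_cancel₀ hk ?_
    rw [h, mul_zero]
    have c0 : ∀ (a b : ℝ), (MvPolynomial.C (a + b) : Poly) = MvPolynomial.C a + MvPolynomial.C b :=
      fun a b => map_add _ a b
    have cm : ∀ (a b : ℝ), (MvPolynomial.C (a * b) : Poly) = MvPolynomial.C a * MvPolynomial.C b :=
      fun a b => map_mul _ a b
    have c1 : (MvPolynomial.C (1 : ℝ) : Poly) = 1 := map_one _
    have c2 : (MvPolynomial.C (2 : ℝ) : Poly) = 2 := map_ofNat _ 2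
    have c3 : (MvPolynomial.C (3 : ℝ) : Poly) = 3 := map_ofNat _ 3
    have c4 : (MvPolynomial.C (4 : ℝ) : Poly) = 4 := map_ofNat _ 4
    have c6 : (MvPolynomial.C (6 : ℝ) : Poly) = 6 := map_ofNat _ 6
    simp only [c0, cm, c1, c2, c3, c4, c6]
    ring

private theorem ev_lin (x y : E3) : ev (lin x) y = inner ℝ x y := by
  simp only [ev, lin, Fin.sum_univ_three, map_add, map_mul, MvPolynomial.eval_C,
    MvPolynomial.eval_X, PiLp.inner_apply, RCLike.inner_apply, conj_trivial]
  ring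

private theorem ev_rsq {y : E3} (hy : ‖y‖ = 1) : ev rsq y = 1 := by
  rw [← sum_sq hy]
  simp only [ev, rsq, map_sum, map_pow, MvPolynomial.eval_X]

theorem Q_ev (x : E3) {y : E3} (hy : ‖y‖ = 1) (k : ℕ) :
    ev (Q x k) y = PL k (inner ℝ x y) := by
  induction k using Nat.twoStepInduction with
  | zero => simp [Q, ev, PL]
  | one => exact ev_lin x y
  | more k h0 h1 =>
    rw [Q, PL, ← h0, ← h1]
    have hl := ev_lin x y
    have hr := ev_rsq hy
    simp only [ev] at hl hr ⊢
    simp only [map_mul, map_sub, MvPolynomial.eval_C]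
    rw [hl, hr, div_eq_inv_mul]
    ring

end Pool.Agent.Helper76.DL
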