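import Pool.Agent.Helper76.DL.Har

/-!
Zonal harmonics have mean zero.

PROOF.  `Q_mean`: `sum_Lr_Lr (Q_hom x k)` (Pool/Agent/Helper83/SD/LOps.lean) with `Q_lap` gives
`∑ a, Lr a (Lr a Q) = - C (k (k+1)) * Q`; `mu_Lr` (Pool/Agent/Helper83/SD/Meas.lean) and
`mu_sum`, `mu_smul` give `0 = - k (k+1) mu Q`.
`design_zero`: the design property for `p = Q x k` (`totalDegree ≤ k ≤ t` by `Q_hom`), whose mean
is `mu (Q x k) = 0` (`mu` and `ev` unfold to the expressions of `IsDesign`), and `Q_ev`.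
-/

set_option autoImplicit false

namespace Pool.Agent.Helper76.DL

open Pool.Agent.Helper83.SD

theorem Q_mean {x : E3} (hx : ‖x‖ = 1) {k : ℕ} (hk : 1 ≤ k) : mu (Q x k) = 0 := by
  have h1 := sum_Lr_Lr (Q_hom x k)
  have h2 : (∑ i, MvPolynomial.pderiv i (MvPolynomial.pderiv i (Q x k))) = 0 := Q_lap hx k
  rw [h2, mul_zero, zero_sub] at h1
  have h3 : mu (∑ a, Lr a (Lr a (Q x k))) = 0 := by
    rw [mu_sum]
    exact Finset.sum_eq_zero fun a _ => mu_Lr a _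
  have h4 : -(MvPolynomial.C ((k : ℝ) * ((k : ℝ) + 1)) * Q x k) =
      (-((k : ℝ) * ((k : ℝ) + 1))) • Q x k := by
    rw [MvPolynomial.C_mul', neg_smul]
  rw [h1, h4, mu_smul] at h3
  have hk0 : (0 : ℝ) < k := by exact_mod_cast hk
  have h5 : -((k : ℝ) * ((k : ℝ) + 1)) ≠ 0 := by
    have : (0 : ℝ) < (k : ℝ) * ((k : ℝ) + 1) := by positivity
    linarith
  exact (mul_eq_zero.1 h3).resolve_left h5

theorem design_zero {t : ℕ} {X : Finset E3} (hX : IsDesign t X) {x : E3} (hx : ‖x‖ = 1)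
    {k : ℕ} (hk : 1 ≤ k) (hkt : k ≤ t) : ∑ y ∈ X, PL k (inner ℝ x y) = 0 := by
  obtain ⟨hne, hnorm, hdes⟩ := hX
  have h1 := hdes (Q x k) (le_trans (Q_hom x k).totalDegree_le hkt)
  have h2 : (⨍ y : Metric.sphere (0 : E3) 1, MvPolynomial.eval (fun i => (y : E3) i) (Q x k)
      ∂((MeasureTheory.volume : MeasureTheory.Measure E3).toSphere)) = 0 := Q_mean hx hk
  rw [h2] at h1
  have hc : ((X.card : ℝ))⁻¹ ≠ 0 := by
    have : 0 < X.card := Finset.card_pos.2 hne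
    positivity
  have h3 := (mul_eq_zero.1 h1).resolve_left hc
  rw [← h3]
  refine Finset.sum_congr rfl fun y hy => ?_
  rw [← Q_ev x (hnorm y hy) k]
  rfl

end Pool.Agent.Helper76.DL
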