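import Pool.Agent.Helper76.DL.Defs

/-!
Small `ε`.

PROOF.  `G(x, e) = ∑ p_m av m x e` is continuous in `(x, e)` (polynomial).  `G > 0` on the
compact set `[0,1] × {0}` (hypothesis), so by compactness (tube lemma,
`generalized_tube_lemma` or a minimum on `[0,1]` and uniform continuity) it is positive on
`[0,1] × [0, e0]`; and `G(1, e) → G(1, 0)`.
-/

set_option autoImplicit false

namespace Pool.Agent.Helper76.DL

private theorem cont_av (m : ℕ) : Continuous (fun z : ℝ × ℝ => av m z.1 z.2) := by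
  unfold av
  refine (MvPolynomial.continuous_eval (am m)).comp ?_
  refine continuous_pi ?_
  intro i
  fin_cases i
  · exact continuous_fst
  · exact continuous_snd

private theorem lim_gen (G : ℝ → ℝ → ℝ) (hG : Continuous (fun z : ℝ × ℝ => G z.1 z.2))
    (δ : ℝ) (hδ : 0 < δ) (hH : ∀ x : ℝ, 0 ≤ x → x ≤ 1 → 0 < G x 0) :
    ∃ e0 : ℝ, 0 < e0 ∧ ∀ e : ℝ, 0 < e → e ≤ e0 →
      (∀ x : ℝ, 0 ≤ x → x ≤ 1 → 0 < G x e) ∧ G 1 0 - δ ≤ G 1 e := by
  have hopen : IsOpen {z : ℝ × ℝ | 0 < G z.1 z.2} := isOpen_lt continuous_const hG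
  have hsub : (Set.Icc (0 : ℝ) 1) ×ˢ ({0} : Set ℝ) ⊆ {z : ℝ × ℝ | 0 < G z.1 z.2} := by
    rintro ⟨x, e⟩ ⟨hx, he⟩
    have he' : e = 0 := he
    subst he'
    exact hH x hx.1 hx.2
  obtain ⟨u, v, -, hv, hu, h0, huv⟩ :=
    generalized_tube_lemma (isCompact_Icc : IsCompact (Set.Icc (0 : ℝ) 1))
      (isCompact_singleton : IsCompact ({0} : Set ℝ)) hopen hsub
  have h0v : (0 : ℝ) ∈ v := h0 rfl
  obtain ⟨r1, hr1, hb1⟩ := Metric.isOpen_iff.mp hv 0 h0v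
  have hc : Continuous (fun e : ℝ => G 1 e) :=
    hG.comp (continuous_const.prodMk continuous_id)
  have hopen2 : IsOpen {e : ℝ | G 1 0 - δ < G 1 e} := isOpen_lt continuous_const hc
  have h02 : (0 : ℝ) ∈ {e : ℝ | G 1 0 - δ < G 1 e} := by
    show G 1 0 - δ < G 1 0
    linarith
  obtain ⟨r2, hr2, hb2⟩ := Metric.isOpen_iff.mp hopen2 0 h02
  refine ⟨min (r1 / 2) (r2 / 2), lt_min (by linarith) (by linarith), ?_⟩
  intro e he hle
  have he1 : e ≤ r1 / 2 := hle.trans (min_le_left _ _)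
  have he2 : e ≤ r2 / 2 := hle.trans (min_le_right _ _)
  refine ⟨?_, ?_⟩
  · intro x hx0 hx1
    have hev : e ∈ v := hb1 (by
      rw [Metric.mem_ball, Real.dist_eq, sub_zero, abs_of_pos he]
      linarith)
    exact huv (Set.mk_mem_prod (hu ⟨hx0, hx1⟩) hev)
  · have hh : e ∈ {e : ℝ | G 1 0 - δ < G 1 e} := hb2 (by
        rw [Metric.mem_ball, Real.dist_eq, sub_zero, abs_of_pos he]
        linarith)
    exact le_of_lt hh

theorem lim_pos (M : ℕ) (p : ℕ → ℝ) (δ : ℝ) (hδ : 0 < δ)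
    (hH : ∀ x : ℝ, 0 ≤ x → x ≤ 1 → 0 < ∑ m ∈ Finset.range M, p m * av m x 0) :
    ∃ e0 : ℝ, 0 < e0 ∧ ∀ e : ℝ, 0 < e → e ≤ e0 →
      (∀ x : ℝ, 0 ≤ x → x ≤ 1 → 0 < ∑ m ∈ Finset.range M, p m * av m x e) ∧
      (∑ m ∈ Finset.range M, p m * av m 1 0) - δ ≤ ∑ m ∈ Finset.range M, p m * av m 1 e :=
  lim_gen (fun x e => ∑ m ∈ Finset.range M, p m * av m x e)
    (continuous_finsetSum _ (fun m _ => continuous_const.mul (cont_av m))) δ hδ hH

end Pool.Agent.Helper76.DL
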