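import Pool.Agent.Helper76.DL.Ser

/-!
The Legendre series (the bound `|P_k(u)| ≤ 1` is given as an argument).

PROOF.  `summ`: comparison with `3 (k+1)^(m+1) r^k` (`summable_pow_mul_geometric_of_norm_lt_one`).
`FF_zero`: let `S = ∑ P_k r^k`, `S1 = ∑ k P_k r^k`.  The recursion
`(k+1) P_{k+1} = (2k+1) u P_k - k P_{k-1}` times `r^{k+1}` summed over `k ≥ 0` gives
`S1 = u r (2 S1 + S) - r² (S1 + S)`, i.e. `D S1 = r (u - r) S`; and `r S' = S1`, so
`(S √D)' = 0` on `(0,1)` (`D' = 2 (r - u)`, `D ≥ (1-r)² > 0`), the limit at `0` is `1`, so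
`S = 1/√D` and `FF 0 = 2 S1 + S = S (1 - r²)/D`.
`FF_deriv`: termwise differentiation of the power series, `r d/dr` multiplies the coefficients
by `k` (`hasDerivAt_tsum_of_isPreconnected` on an interval `(0, ρ)`, `r < ρ < 1`).
-/

set_option autoImplicit false

namespace Pool.Agent.Helper76.DL

section Ser0

variable {a : ℕ → ℝ}

/-- the derivative series converges -/
theorem ser0_sum1 (ha : ∀ k, |a k| ≤ 1) {s : ℝ} (hs : |s| < 1) :
    Summable fun k : ℕ => ((k : ℝ) + 1) * a k * s ^ k := by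
  have h1 : Summable fun k : ℕ => ((k : ℝ) ^ 1 * |s| ^ k + |s| ^ k) :=
    (summable_pow_mul_geometric_of_norm_lt_one 1 (by simpa using hs)).add
      (summable_geometric_of_lt_one (abs_nonneg s) hs)
  refine Summable.of_norm_bounded h1 (fun k => ?_)
  rw [Real.norm_eq_abs, abs_mul, abs_mul, abs_pow, abs_of_nonneg (by positivity : (0 : ℝ) ≤ k + 1)]
  have h2 : 0 ≤ ((k : ℝ) + 1) * |s| ^ k := by positivity
  nlinarith [ha k, h2]

theorem ser0_sum0 (ha : ∀ k, |a k| ≤ 1) {s : ℝ} (hs : |s| < 1) :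
    Summable fun k : ℕ => a k * s ^ k := by
  refine Summable.of_norm_bounded (summable_geometric_of_lt_one (abs_nonneg s) hs) (fun k => ?_)
  rw [Real.norm_eq_abs, abs_mul, abs_pow]
  have h2 : 0 ≤ |s| ^ k := by positivity
  nlinarith [ha k, h2]

theorem ser0_sumT (ha : ∀ k, |a k| ≤ 1) {s : ℝ} (hs : |s| < 1) :
    Summable fun k : ℕ => ((k : ℝ) + 1) * a (k + 1) * s ^ k :=
  ser0_sum1 (a := fun k => a (k + 1)) (fun k => ha (k + 1)) hs

theorem ser0_deriv (ha : ∀ k, |a k| ≤ 1) {s : ℝ} (hs : |s| < 1) :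
    HasDerivAt (fun z : ℝ => ∑' k : ℕ, a k * z ^ k)
      (∑' k : ℕ, ((k : ℝ) + 1) * a (k + 1) * s ^ k) s := by
  obtain ⟨ρ, h1, h2⟩ := exists_between hs
  have hρ0 : 0 < ρ := lt_of_le_of_lt (abs_nonneg s) h1
  have hu : Summable fun k : ℕ => (k : ℝ) * ρ ^ (k - 1) := by
    rw [← summable_nat_add_iff 1]
    have h3 : Summable fun k : ℕ => ((k : ℝ) ^ 1 * ρ ^ k + ρ ^ k) :=
      (summable_pow_mul_geometric_of_norm_lt_one 1 (by
        rw [Real.norm_eq_abs, abs_of_pos hρ0]; exact h2)).add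
        (summable_geometric_of_lt_one hρ0.le h2)
    refine h3.congr (fun k => ?_)
    push_cast
    ring
  have hmain := hasDerivAt_tsum_of_isPreconnected (𝕜 := ℝ) (F := ℝ)
    (g := fun (k : ℕ) (z : ℝ) => a k * z ^ k)
    (g' := fun (k : ℕ) (z : ℝ) => a k * ((k : ℝ) * z ^ (k - 1)))
    (u := fun k : ℕ => (k : ℝ) * ρ ^ (k - 1)) (t := Set.Ioo (-ρ) ρ) (y₀ := 0) (y := s)
    hu isOpen_Ioo isPreconnected_Ioo
    (fun n y _ => (hasDerivAt_pow n y).const_mul (a n))
    (fun n y hy => by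
      rw [Real.norm_eq_abs, abs_mul, abs_mul, abs_pow, Nat.abs_cast]
      have hy1 : |y| ≤ ρ := abs_le.2 ⟨hy.1.le, hy.2.le⟩
      have h4 : |y| ^ (n - 1) ≤ ρ ^ (n - 1) := pow_le_pow_left₀ (abs_nonneg y) hy1 _
      have h5 : (n : ℝ) * |y| ^ (n - 1) ≤ (n : ℝ) * ρ ^ (n - 1) :=
        mul_le_mul_of_nonneg_left h4 (Nat.cast_nonneg n)
      have h6 : 0 ≤ (n : ℝ) * |y| ^ (n - 1) := by positivity
      nlinarith [ha n, abs_nonneg (a n)])
    ⟨by linarith, hρ0⟩ (ser0_sum0 ha (by simp)) (abs_lt.1 h1)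
  have hsum : Summable fun k : ℕ => a k * ((k : ℝ) * s ^ (k - 1)) := by
    rw [← summable_nat_add_iff 1]
    refine (ser0_sumT ha hs).congr (fun k => ?_)
    push_cast
    ring
  have he : (∑' k : ℕ, a k * ((k : ℝ) * s ^ (k - 1)))
      = ∑' k : ℕ, ((k : ℝ) + 1) * a (k + 1) * s ^ k := by
    rw [hsum.tsum_eq_zero_add]
    simp only [Nat.cast_zero, zero_mul, mul_zero, zero_add]
    refine tsum_congr (fun k => ?_)
    push_cast
    ring
  rw [he] at hmain
  exact hmain

end Ser0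

theorem PL_rec (k : ℕ) (u : ℝ) :
    ((k : ℝ) + 2) * PL (k + 2) u
      = (2 * (k : ℝ) + 3) * u * PL (k + 1) u - ((k : ℝ) + 1) * PL k u := by
  have h : (k : ℝ) + 2 ≠ 0 := by positivity
  rw [PL]
  field_simp

theorem FF_zero {u : ℝ} (hu : |u| ≤ 1) (hP : ∀ k, |PL k u| ≤ 1) {r : ℝ} (h0 : 0 < r)
    (h1 : r < 1) : FF 0 r u = (1 - r ^ 2) / (DD r u * Real.sqrt (DD r u)) := by
  set a : ℕ → ℝ := fun k => PL k u with hadef
  have ha : ∀ k, |a k| ≤ 1 := hP
  have ha0 : a 0 = 1 := rfl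
  have ha1 : a 1 = u := rfl
  have harec : ∀ k : ℕ, ((k : ℝ) + 2) * a (k + 2)
      = (2 * (k : ℝ) + 3) * u * a (k + 1) - ((k : ℝ) + 1) * a k := fun k => PL_rec k u
  have hFF : FF 0 r u = ∑' k : ℕ, (2 * (k : ℝ) + 1) * r ^ k * a k := by
    rw [FF]
    refine tsum_congr (fun k => ?_)
    simp only [pow_zero, mul_one]
    rfl
  rw [hFF]
  clear_value a
  clear hFF hP hadef
  obtain ⟨S, hS⟩ : ∃ S : ℝ → ℝ, S = fun z : ℝ => ∑' k : ℕ, a k * z ^ k := ⟨_, rfl⟩
  obtain ⟨T, hT⟩ : ∃ T : ℝ → ℝ, T = fun s : ℝ => ∑' k : ℕ, ((k : ℝ) + 1) * a (k + 1) * s ^ k :=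
    ⟨_, rfl⟩
  have hD : ∀ s : ℝ, |s| < 1 → HasDerivAt S (T s) s := by
    intro s hs
    rw [hS, hT]
    exact ser0_deriv ha hs
  -- the differential equation
  have hode : ∀ s : ℝ, |s| < 1 → DD s u * T s = (u - s) * S s := by
    intro s hs
    have e0 := ser0_sum0 ha hs
    have eT := ser0_sumT ha hs
    have e1 := ser0_sum1 ha hs
    -- S - 1
    have f1 : S s = 1 + ∑' k : ℕ, a (k + 1) * s ^ (k + 1) := by
      rw [hS]
      simp only
      rw [e0.tsum_eq_zero_add, ha0]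
      simp
    have e0' : Summable fun k : ℕ => a (k + 1) * s ^ (k + 1) :=
      (summable_nat_add_iff 1).2 e0
    -- sum (k+1) a k s^k = s T + S
    have f2 : (∑' k : ℕ, ((k : ℝ) + 1) * a k * s ^ k) = s * T s + S s := by
      have g1 : (∑' k : ℕ, ((k : ℝ) + 1) * a k * s ^ k)
          = (∑' k : ℕ, (k : ℝ) * a k * s ^ k) + ∑' k : ℕ, a k * s ^ k := by
        have g2 : Summable fun k : ℕ => (k : ℝ) * a k * s ^ k := by
          refine (e1.sub e0).congr (fun k => ?_)
          ring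
        rw [← g2.tsum_add e0]
        refine tsum_congr (fun k => ?_)
        ring
      have g3 : (∑' k : ℕ, (k : ℝ) * a k * s ^ k) = s * T s := by
        have g2 : Summable fun k : ℕ => (k : ℝ) * a k * s ^ k := by
          refine (e1.sub e0).congr (fun k => ?_)
          ring
        rw [g2.tsum_eq_zero_add, hT]
        simp only [Nat.cast_zero, zero_mul, zero_add]
        rw [← tsum_mul_left]
        refine tsum_congr (fun k => ?_)
        push_cast
        ring
      rw [g1, g3, hS]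
    -- T
    have f3 : T s = u + ∑' k : ℕ, ((k : ℝ) + 2) * a (k + 2) * s ^ (k + 1) := by
      rw [hT]
      simp only
      rw [eT.tsum_eq_zero_add]
      simp only [Nat.cast_zero, zero_add, ha1, one_mul, pow_zero, mul_one]
      congr 1
      refine tsum_congr (fun k => ?_)
      push_cast
      ring
    have f4 : (∑' k : ℕ, ((k : ℝ) + 2) * a (k + 2) * s ^ (k + 1))
        = 2 * u * s * T s + u * (∑' k : ℕ, a (k + 1) * s ^ (k + 1))
          - s * ∑' k : ℕ, ((k : ℝ) + 1) * a k * s ^ k := by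
      rw [hT]
      simp only
      rw [← tsum_mul_left, ← tsum_mul_left, ← tsum_mul_left,
        ← (eT.mul_left (2 * u * s)).tsum_add (e0'.mul_left u),
        ← ((eT.mul_left (2 * u * s)).add (e0'.mul_left u)).tsum_sub (e1.mul_left s)]
      refine tsum_congr (fun k => ?_)
      rw [harec k]
      ring
    rw [f2] at f4
    have f5 : (∑' k : ℕ, a (k + 1) * s ^ (k + 1)) = S s - 1 := by rw [f1]; ring
    rw [f5] at f4
    rw [f4] at f3
    have f6 : DD s u = 1 - 2 * s * u + s ^ 2 := rfl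
    rw [f6]
    linear_combination f3
  have hDpos : ∀ s : ℝ, |s| < 1 → 0 < DD s u := by
    intro s hs
    have f6 : DD s u = 1 - 2 * s * u + s ^ 2 := rfl
    rw [f6]
    have g1 : s * u ≤ |s| := by
      calc s * u ≤ |s * u| := le_abs_self _
        _ = |s| * |u| := abs_mul _ _
        _ ≤ |s| * 1 := mul_le_mul_of_nonneg_left hu (abs_nonneg s)
        _ = |s| := mul_one _
    have g2 : s ^ 2 = |s| ^ 2 := (sq_abs s).symm
    nlinarith [sq_nonneg (1 - |s|), sq_pos_of_pos (sub_pos.2 hs)]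
  have hder : ∀ s : ℝ, |s| < 1 →
      HasDerivAt (fun z => S z * Real.sqrt (DD z u)) 0 s := by
    intro s hs
    have g1 : HasDerivAt (fun z : ℝ => DD z u) (-(2 * u) + 2 * s) s := by
      have g2 : HasDerivAt (fun z : ℝ => 1 - 2 * z * u + z ^ 2) (-(2 * u) + 2 * s) s := by
        have g3 := (((hasDerivAt_id s).const_mul (2 : ℝ)).mul_const u).const_sub 1
        have g4 := g3.add (hasDerivAt_pow 2 s)
        refine g4.congr_deriv ?_
        simp
      exact g2
    have g5 := g1.sqrt (hDpos s hs).ne'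
    have g6 := (hD s hs).mul g5
    refine g6.congr_deriv ?_
    have g7 : Real.sqrt (DD s u) ≠ 0 := (Real.sqrt_pos.2 (hDpos s hs)).ne'
    have g8 : Real.sqrt (DD s u) * Real.sqrt (DD s u) = DD s u :=
      Real.mul_self_sqrt (hDpos s hs).le
    have g9 := hode s hs
    have g10 : T s * Real.sqrt (DD s u) * Real.sqrt (DD s u) + S s * (s - u) = 0 := by
      rw [mul_assoc, g8]
      linear_combination g9
    have g12 : T s * Real.sqrt (DD s u) + S s * ((-(2 * u) + 2 * s) / (2 * Real.sqrt (DD s u)))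
        = (T s * Real.sqrt (DD s u) * Real.sqrt (DD s u) + S s * (s - u)) /
          Real.sqrt (DD s u) := by
      field_simp
      ring
    rw [g12, g10, zero_div]
  have habs : ∀ s ∈ Set.Icc (0 : ℝ) r, |s| < 1 := by
    intro s hs
    rw [abs_of_nonneg hs.1]
    exact lt_of_le_of_lt hs.2 h1
  have hconst := constant_of_has_deriv_right_zero (f := fun z => S z * Real.sqrt (DD z u))
    (a := 0) (b := r)
    (fun s hs => (hder s (habs s hs)).continuousAt.continuousWithinAt)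
    (fun s hs => (hder s (habs s ⟨hs.1, hs.2.le⟩)).hasDerivWithinAt)
    r ⟨h0.le, le_refl r⟩
  have hS0 : S 0 = 1 := by
    rw [hS]
    simp only
    rw [tsum_eq_single 0]
    · simp [ha0]
    · intro k hk
      simp [hk]
  have hD0 : DD 0 u = 1 := by simp [DD]
  simp only [hS0, hD0, Real.sqrt_one, mul_one] at hconst
  have hr1 : |r| < 1 := by rw [abs_of_pos h0]; exact h1
  have hode' := hode r hr1
  have hDr := hDpos r hr1
  have hsq : 0 < Real.sqrt (DD r u) := Real.sqrt_pos.2 hDr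
  have hfin : (∑' k : ℕ, (2 * (k : ℝ) + 1) * r ^ k * a k) = 2 * r * T r + S r := by
    have e0 := ser0_sum0 ha hr1
    have e1 := ser0_sum1 ha hr1
    have g2 : Summable fun k : ℕ => (k : ℝ) * a k * r ^ k := by
      refine (e1.sub e0).congr (fun k => ?_)
      ring
    have g3 : (∑' k : ℕ, (k : ℝ) * a k * r ^ k) = r * T r := by
      rw [g2.tsum_eq_zero_add, hT]
      simp only [Nat.cast_zero, zero_mul, zero_add]
      rw [← tsum_mul_left]
      refine tsum_congr (fun k => ?_)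
      push_cast
      ring
    have g4 : (∑' k : ℕ, (2 * (k : ℝ) + 1) * r ^ k * a k)
        = 2 * (∑' k : ℕ, (k : ℝ) * a k * r ^ k) + ∑' k : ℕ, a k * r ^ k := by
      rw [← tsum_mul_left, ← (g2.mul_left 2).tsum_add e0]
      refine tsum_congr (fun k => ?_)
      ring
    rw [g4, g3, hS]
    ring
  rw [hfin, eq_div_iff (by positivity)]
  have h5 : DD r u = 1 - 2 * r * u + r ^ 2 := rfl
  have h6 : (2 * r * T r + S r) * (DD r u * Real.sqrt (DD r u))
      = (2 * r * (DD r u * T r) + S r * DD r u) * Real.sqrt (DD r u) := by ring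
  rw [h6, hode', h5]
  rw [h5] at hconst
  linear_combination (1 - r ^ 2) * hconst

end Pool.Agent.Helper76.DL
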