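import Pool.Agent.Helper76.DL.Ser
import Pool.Agent.Helper76.DL.Ser0
import Pool.Agent.Helper76.DL.Av

/-!
The closed form of the series with powers of `k`.

PROOF.  `av_deriv`: chain rule for a polynomial in two variables (induction on the polynomial,
see `hasDerivAt_ev` in Pool/Agent/Helper83/SD/LOps.lean).
`FF_eq`, by induction on `m`, for all `e`.  Write `r = 1 - e`, `D = DD r u`,
`c = cc r u = e / √D`, `x = c²= e²/D`.  For the derivatives with respect to `r`:
`e' = -1`, `D' = 2 (r - u)`, `r D' = D - e (2 - e)` (exact), so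
`r c' = - c (1 - c²) (1/e - 1/2)` and `r x' = - (2 - e) x (1 - x) / e`.
`m = 0`: `e² FF 0 = e² (1 - r²)/(D √D) = (2 - e) c³` as `1 - r² = e (2 - e)`.
Step: `FF (m+1) = r (FF m)'` (`FF_deriv`), `FF m = e^(-(m+2)) c³ av m x e`, so
`e^(m+3) FF (m+1) = r [ (m+2) c³ av - 3 e ... ]`: explicitly
`e^(m+3) FF (m+1) = (m+2)(1-e) c³ av + e · 3 c² (r c') av + e c³ ((r x') ∂₀av - r ∂₁av)`
`= c³ [ (m+2)(1-e) av - 3 (1-x)(1 - e/2) av - (2-e) x (1-x) ∂₀av - e (1-e) ∂₁av ]`,
which is `c³ av (m+1)`.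
-/

set_option autoImplicit false

namespace Pool.Agent.Helper76.DL

open Filter Topology

theorem DD_pos' {u r : ℝ} (hu : |u| ≤ 1) (h0 : 0 < r) (h1 : r < 1) : 0 < DD r u := by
  have h2 := (abs_le.1 hu).2
  have h3 : 0 < (1 - r) ^ 2 := by
    have : 0 < 1 - r := by linarith
    positivity
  unfold DD
  nlinarith [mul_nonneg h0.le (sub_nonneg.2 h2)]

theorem cc_deriv' {u r : ℝ} (hu : |u| ≤ 1) (h0 : 0 < r) (h1 : r < 1) :
    HasDerivAt (fun s => cc s u)
      (-(cc r u * (1 - cc r u ^ 2) * (1 / (1 - r) - 1 / 2)) / r) r := by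
  have hD := DD_pos' hu h0 h1
  have h2 : HasDerivAt (fun s => DD s u) (2 * (r - u)) r := by
    have h3 := ((((hasDerivAt_id r).const_mul 2).mul_const u).const_sub 1).add
        ((hasDerivAt_id r).pow 2)
    refine (h3.congr_deriv ?_).congr_of_eventuallyEq (Eventually.of_forall fun s => ?_)
    · simp only [id]
      push_cast
      ring
    · simp only [DD, Pi.add_apply, Pi.pow_apply, id]
  have hS := Real.sqrt_pos.2 hD
  have h4 := h2.sqrt hD.ne'
  have h5 := ((hasDerivAt_id r).const_sub 1).div h4 hS.ne'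
  have h6 : Real.sqrt (DD r u) ^ 2 = 1 - 2 * r * u + r ^ 2 := Real.sq_sqrt hD.le
  have h7 : (1 - r) ≠ 0 := by linarith
  refine h5.congr_deriv ?_
  simp only [id, cc]
  generalize Real.sqrt (DD r u) = S at *
  have hS' := hS.ne'
  have hr := h0.ne'
  have A : S ^ 2 + (1 - r) * (r - u) = (1 + r) * (1 - u) := by linear_combination h6
  have B : S ^ 2 - (1 - r) ^ 2 = 2 * r * (1 - u) := by linear_combination h6
  have e1 : (-1 * S - (1 - r) * (2 * (r - u) / (2 * S))) / S ^ 2
      = -(S ^ 2 + (1 - r) * (r - u)) / S ^ 3 := by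
    field_simp
    ring
  have e2 : -((1 - r) / S * (1 - ((1 - r) / S) ^ 2) * (1 / (1 - r) - 1 / 2)) / r
      = -((S ^ 2 - (1 - r) ^ 2) * (1 + r)) / (2 * r * S ^ 3) := by
    field_simp
    ring
  rw [e1, e2, A, B]
  field_simp

theorem FF_eq' {u : ℝ} (hu : |u| ≤ 1) (hP : ∀ k, |PL k u| ≤ 1) (m : ℕ) :
    ∀ {e : ℝ}, 0 < e → e < 1 →
    e ^ (m + 2) * FF m (1 - e) u = cc (1 - e) u ^ 3 * av m (cc (1 - e) u ^ 2) e := by
  induction m with
  | zero =>
    intro e h0 h1
    have hr0 : 0 < 1 - e := by linarith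
    have hr1 : 1 - e < 1 := by linarith
    have hD := DD_pos' hu hr0 hr1
    have hS := Real.sqrt_pos.2 hD
    have hSD : DD (1 - e) u = Real.sqrt (DD (1 - e) u) ^ 2 := (Real.sq_sqrt hD.le).symm
    rw [FF_zero hu hP hr0 hr1]
    have hav : av 0 (cc (1 - e) u ^ 2) e = 2 - e := by
      simp [av, am]
    rw [hav]
    unfold cc
    generalize Real.sqrt (DD (1 - e) u) = S at *
    rw [hSD]
    have hS' := hS.ne'
    field_simp
    ring
  | succ m ih =>
    intro e h0 h1
    have hr0 : 0 < 1 - e := by linarith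
    have hr1 : 1 - e < 1 := by linarith
    set r := 1 - e with hr
    have he : e = 1 - r := by rw [hr]; ring
    have hc := cc_deriv' hu hr0 hr1
    set c' := -(cc r u * (1 - cc r u ^ 2) * (1 / (1 - r) - 1 / 2)) / r with hc'
    have hf1 : HasDerivAt (fun s : ℝ => 1 - s) (-1) r := by
      simpa using (hasDerivAt_id r).const_sub 1
    have hG := (hf1.pow (m + 2)).mul (FF_deriv hP m hr0 hr1)
    have hav := av_deriv (am m) (hc.pow 2) hf1
    have hH := (hc.pow 3).mul hav
    have hev : (fun s => (1 - s) ^ (m + 2) * FF m s u) =ᶠ[𝓝 r]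
        (fun s => cc s u ^ 3 * MvPolynomial.eval ![cc s u ^ 2, 1 - s] (am m)) := by
      have h2 : ∀ᶠ s in 𝓝 r, s ∈ Set.Ioo (0 : ℝ) 1 := Ioo_mem_nhds hr0 hr1
      filter_upwards [h2] with s hs
      have := ih (e := 1 - s) (by linarith [hs.2]) (by linarith [hs.1])
      rw [sub_sub_cancel] at this
      exact this
    have hG' : HasDerivAt (fun s => (1 - s) ^ (m + 2) * FF m s u) _ r := hG
    have hH' : HasDerivAt (fun s => cc s u ^ 3 * MvPolynomial.eval ![cc s u ^ 2, 1 - s] (am m))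
      _ r := hH
    have key := hG'.unique (hH'.congr_of_eventuallyEq hev)
    have ihr := ih (e := e) h0 h1
    rw [← hr] at ihr
    have hc2 : e * (r * c') = -(cc r u * (1 - cc r u ^ 2) * (1 - 1 / 2 * e)) := by
      rw [hc', ← he]
      field_simp
    have hav1 : av (m + 1) (cc r u ^ 2) e
        = ((m : ℝ) + 2) * ((1 - e) * av m (cc r u ^ 2) e)
          - (1 - cc r u ^ 2) * ((1 - 1 / 2 * e) * (3 * av m (cc r u ^ 2) e
            + 2 * (cc r u ^ 2 * MvPolynomial.eval ![cc r u ^ 2, e] (MvPolynomial.pderiv 0 (am m)))))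
          - e * ((1 - e) * MvPolynomial.eval ![cc r u ^ 2, e] (MvPolynomial.pderiv 1 (am m))) := by
      simp only [av, am]
      simp
    rw [hav1]
    unfold av at *
    simp only [Pi.pow_apply, ← he] at key
    generalize MvPolynomial.eval ![cc r u ^ 2, e] (MvPolynomial.pderiv 0 (am m)) = a0 at *
    generalize MvPolynomial.eval ![cc r u ^ 2, e] (MvPolynomial.pderiv 1 (am m)) = a1 at *
    generalize MvPolynomial.eval ![cc r u ^ 2, e] (am m) = a at *
    generalize FF m r u = f at *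
    generalize FF (m + 1) r u = g at *
    generalize cc r u = c at *
    have hrne := hr0.ne'
    have key2 : r * (g / r) = g := by field_simp
    have e1 : m + 2 - 1 = m + 1 := rfl
    have p1 : e ^ (m + 2) = e ^ (m + 1) * e := pow_succ _ _
    have p2 : e ^ (m + 1 + 2) = e ^ (m + 1) * e ^ 2 := pow_add _ _ _
    rw [e1, p1] at key
    rw [p1] at ihr
    rw [p2]
    push_cast at key
    clear hG hG' hH hH' hav hev
    generalize e ^ (m + 1) = E at *
    linear_combination (r * e) * key - E * e ^ 2 * key2 + ((m : ℝ) + 2) * r * ihr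
      + (3 * c ^ 2 * a + 2 * c ^ 4 * a0) * hc2
      + (c ^ 3 * ((m : ℝ) + 2) * a - c ^ 3 * e * a1) * hr

theorem FF_eq {u : ℝ} (hu : |u| ≤ 1) (hP : ∀ k, |PL k u| ≤ 1) (m : ℕ) {e : ℝ} (h0 : 0 < e)
    (h1 : e < 1) :
    e ^ (m + 2) * FF m (1 - e) u = cc (1 - e) u ^ 3 * av m (cc (1 - e) u ^ 2) e :=
  FF_eq' hu hP m h0 h1

end Pool.Agent.Helper76.DL
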