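import Pool.Agent.Helper76.DL.Pos
import Pool.Agent.Helper76.DL.Har2
import Pool.Agent.Helper76.DL.Rec
import Pool.Agent.Helper76.DL.Lim

/-!
The linear programming bound.

PROOF.  `H = ∑ p_m av m 1 0`.  Choose `δ > 0` with `κ p_0 y0² ≤ H - δ`, `e0` from `lim_pos`,
`T` with `y0 / (T + 1) ≤ e0` and `< 1`.  For `t ≥ T` put `e = y0/(t+1)`, `r = 1 - e`,
`F u = ∑' k, (2k+1) p(e k) r^k P_k(u) = ∑_{m<M} p_m e^m FF m r u` (`summ`), so
`e² F u = c³ ∑ p_m av m c² e` (`FF_eq`, `cc_mem`) is `≥ 0` for `|u| ≤ 1`, and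
`e² F 1 = ∑ p_m av m 1 e ≥ H - δ` (`cc_one`).
For a design `X`, `N = card`: `∑_{x,y} F(x·y) ≥ ∑_x F(1) = N F 1` (all terms `≥ 0`, `|x·y| ≤ 1`),
and exchanging the sums (`Summable.tsum_finsetSum`) `∑_{x,y} F(x·y) =
∑' k, (2k+1) p(e k) r^k S_k`, `S_k = ∑_{x,y} P_k(x·y)`: `S_0 = N²`, `S_k = 0` for
`1 ≤ k ≤ t` (`design_zero`), and for `k > t`: `S_k ≥ 0` (`pd` with `c = 1`), `p(e k) ≤ 0` as
`e k ≥ y0`.  So `N F 1 ≤ p_0 N²`, `N ≥ F 1 / p_0 ≥ (H - δ)/(p_0 e²) ≥ κ y0²/e² = κ (t+1)²`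
(if `κ ≥ 0`; if `κ < 0` there is nothing to prove).
-/

set_option autoImplicit false

namespace Pool.Agent.Helper76.DL

open Pool.Agent.Helper83.SD

/-- the series of `F` -/
theorem Main_series (M : ℕ) (p : ℕ → ℝ) (e : ℝ) {r : ℝ} (h0 : 0 ≤ r) (h1 : r < 1) {u : ℝ}
    (hP : ∀ k, |PL k u| ≤ 1) :
    Summable (fun k : ℕ => (2 * (k : ℝ) + 1) * (∑ m ∈ Finset.range M, p m * (e * k) ^ m) * r ^ k *
        PL k u) ∧
      ∑ m ∈ Finset.range M, p m * e ^ m * FF m r u =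
        ∑' k : ℕ, (2 * (k : ℝ) + 1) * (∑ m ∈ Finset.range M, p m * (e * k) ^ m) * r ^ k *
          PL k u := by
  have hs : ∀ m ∈ Finset.range M, Summable fun k : ℕ =>
      p m * e ^ m * ((2 * (k : ℝ) + 1) * (k : ℝ) ^ m * r ^ k * PL k u) :=
    fun m _ => (summ hP m h0 h1).mul_left _
  have hpt : (fun k : ℕ => ∑ m ∈ Finset.range M,
      p m * e ^ m * ((2 * (k : ℝ) + 1) * (k : ℝ) ^ m * r ^ k * PL k u)) =
      fun k : ℕ => (2 * (k : ℝ) + 1) * (∑ m ∈ Finset.range M, p m * (e * k) ^ m) * r ^ k *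
        PL k u := by
    funext k
    rw [Finset.mul_sum, Finset.sum_mul, Finset.sum_mul]
    refine Finset.sum_congr rfl fun m _ => ?_
    rw [mul_pow]
    ring
  constructor
  · rw [← hpt]
    exact summable_sum hs
  · rw [← hpt, Summable.tsum_finsetSum hs]
    refine Finset.sum_congr rfl fun m _ => ?_
    rw [tsum_mul_left]
    rfl

/-- `|x · y| ≤ 1` -/
theorem Main_abs {x y : E3} (hx : ‖x‖ = 1) (hy : ‖y‖ = 1) : |(inner ℝ x y : ℝ)| ≤ 1 := by
  have h := abs_real_inner_le_norm x y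
  rwa [hx, hy, one_mul] at h

theorem lp_bound (M : ℕ) (hM : 0 < M) (p : ℕ → ℝ) (y0 κ : ℝ) (hy : 0 < y0) (hp : 0 < p 0)
    (hneg : ∀ y : ℝ, y0 ≤ y → ∑ m ∈ Finset.range M, p m * y ^ m ≤ 0)
    (hH : ∀ x : ℝ, 0 ≤ x → x ≤ 1 → 0 < ∑ m ∈ Finset.range M, p m * av m x 0)
    (hκ : κ * (p 0 * y0 ^ 2) < ∑ m ∈ Finset.range M, p m * av m 1 0) :
    ∃ T : ℕ, ∀ t : ℕ, T ≤ t → ∀ X : Finset E3, IsDesign t X →
      κ * (t : ℝ) ^ 2 ≤ (X.card : ℝ) := by
  rcases lt_or_ge κ 0 with hκ0 | hκ0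
  · refine ⟨0, fun t _ X _ => ?_⟩
    have h1 : κ * (t : ℝ) ^ 2 ≤ 0 := mul_nonpos_of_nonpos_of_nonneg hκ0.le (sq_nonneg _)
    exact h1.trans (Nat.cast_nonneg _)
  set H : ℝ := ∑ m ∈ Finset.range M, p m * av m 1 0 with hHdef
  obtain ⟨e0, he0, hlim⟩ := lim_pos M p (H - κ * (p 0 * y0 ^ 2)) (sub_pos.2 hκ) hH
  obtain ⟨T, hT⟩ := exists_nat_gt (max (y0 / e0) y0)
  refine ⟨T, fun t ht X hX => ?_⟩
  have htT : (T : ℝ) ≤ t := by exact_mod_cast ht
  have ht1 : y0 / e0 < (t : ℝ) + 1 := by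
    have := (le_max_left (y0 / e0) y0).trans_lt hT
    linarith
  have ht2 : y0 < (t : ℝ) + 1 := by
    have := (le_max_right (y0 / e0) y0).trans_lt hT
    linarith
  have htp : (0 : ℝ) < (t : ℝ) + 1 := by positivity
  set e : ℝ := y0 / ((t : ℝ) + 1) with he
  have hepos : 0 < e := div_pos hy htp
  have hee0 : e ≤ e0 := by
    rw [he, div_le_iff₀ htp]
    rw [div_lt_iff₀ he0] at ht1
    linarith
  have he1 : e < 1 := by rwa [he, div_lt_one htp]
  have hr0 : (0 : ℝ) ≤ 1 - e := by linarith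
  have hr1 : (1 : ℝ) - e < 1 := by linarith
  obtain ⟨hpos, hge⟩ := hlim e hepos hee0
  obtain ⟨hXne, hXn, -⟩ := id hX
  -- the function `F`
  set F : ℝ → ℝ := fun u => ∑ m ∈ Finset.range M, p m * e ^ m * FF m (1 - e) u with hF
  have hFe : ∀ u : ℝ, |u| ≤ 1 → e ^ 2 * F u =
      cc (1 - e) u ^ 3 * ∑ m ∈ Finset.range M, p m * av m (cc (1 - e) u ^ 2) e := by
    intro u hu
    rw [hF]
    simp only
    rw [Finset.mul_sum, Finset.mul_sum]
    refine Finset.sum_congr rfl fun m _ => ?_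
    have h := FF_eq hu (PL_abs_le hu) m hepos he1
    calc e ^ 2 * (p m * e ^ m * FF m (1 - e) u) = p m * (e ^ (m + 2) * FF m (1 - e) u) := by ring
      _ = _ := by rw [h]; ring
  have hFnn : ∀ u : ℝ, |u| ≤ 1 → 0 ≤ F u := by
    intro u hu
    have h1 := hFe u hu
    obtain ⟨hc0, hc1⟩ := cc_mem hu hepos he1
    have h2 := hpos (cc (1 - e) u ^ 2) (sq_nonneg _) (pow_le_one₀ hc0.le hc1)
    have h3 : 0 ≤ e ^ 2 * F u := by
      rw [h1]
      exact mul_nonneg (pow_nonneg hc0.le 3) h2.le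
    exact nonneg_of_mul_nonneg_right h3 (by positivity)
  have hF1 : κ * (p 0 * y0 ^ 2) ≤ e ^ 2 * F 1 := by
    have h1 := hFe 1 (by rw [abs_one])
    rw [cc_one hepos, one_pow, one_pow, one_mul] at h1
    rw [h1]
    linarith
  -- the double sum
  set S : ℕ → ℝ := fun k => ∑ x ∈ X, ∑ y ∈ X, PL k (inner ℝ x y) with hS
  set q : ℕ → ℝ := fun k => ∑ m ∈ Finset.range M, p m * (e * k) ^ m with hq
  have hser : ∀ x ∈ X, ∀ y ∈ X,
      Summable (fun k : ℕ => (2 * (k : ℝ) + 1) * q k * (1 - e) ^ k * PL k (inner ℝ x y)) ∧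
      F (inner ℝ x y) =
        ∑' k : ℕ, (2 * (k : ℝ) + 1) * q k * (1 - e) ^ k * PL k (inner ℝ x y) := by
    intro x hx y hy'
    exact Main_series M p e hr0 hr1 (PL_abs_le (Main_abs (hXn x hx) (hXn y hy')))
  have hterm : ∀ k : ℕ, (2 * (k : ℝ) + 1) * q k * (1 - e) ^ k * S k =
      ∑ x ∈ X, ∑ y ∈ X, (2 * (k : ℝ) + 1) * q k * (1 - e) ^ k * PL k (inner ℝ x y) := by
    intro k
    rw [hS]
    simp only
    rw [Finset.mul_sum]
    refine Finset.sum_congr rfl fun x _ => ?_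
    rw [Finset.mul_sum]
  have hsum : Summable (fun k : ℕ => (2 * (k : ℝ) + 1) * q k * (1 - e) ^ k * S k) := by
    simp only [hterm]
    exact summable_sum fun x hx => summable_sum fun y hy' => (hser x hx y hy').1
  have htot : ∑ x ∈ X, ∑ y ∈ X, F (inner ℝ x y) =
      ∑' k : ℕ, (2 * (k : ℝ) + 1) * q k * (1 - e) ^ k * S k := by
    simp only [hterm]
    rw [Summable.tsum_finsetSum fun x hx => summable_sum fun y hy' => (hser x hx y hy').1]
    refine Finset.sum_congr rfl fun x hx => ?_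
    rw [Summable.tsum_finsetSum fun y hy' => (hser x hx y hy').1]
    exact Finset.sum_congr rfl fun y hy' => (hser x hx y hy').2
  -- lower bound
  have hlow : (X.card : ℝ) * F 1 ≤ ∑ x ∈ X, ∑ y ∈ X, F (inner ℝ x y) := by
    rw [← nsmul_eq_mul, ← Finset.sum_const]
    refine Finset.sum_le_sum fun x hx => ?_
    have h1 : F (inner ℝ x x) = F 1 := by
      rw [real_inner_self_eq_norm_sq, hXn x hx, one_pow]
    rw [← h1]
    exact Finset.single_le_sum (f := fun y => F (inner ℝ x y))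
      (fun y hy' => hFnn _ (Main_abs (hXn x hx) (hXn y hy'))) hx
  -- upper bound
  have hS0 : S 0 = (X.card : ℝ) ^ 2 := by
    simp only [hS, PL, Finset.sum_const, nsmul_eq_mul, mul_one]
    ring
  have hq0 : q 0 = p 0 := by
    simp only [hq, Nat.cast_zero, mul_zero]
    rw [Finset.sum_eq_single 0]
    · simp
    · intro m _ hm
      rw [zero_pow hm, mul_zero]
    · intro h
      exact absurd (Finset.mem_range.2 hM) h
  have hupp : ∑' k : ℕ, (2 * (k : ℝ) + 1) * q k * (1 - e) ^ k * S k ≤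
      p 0 * (X.card : ℝ) ^ 2 := by
    rw [hsum.tsum_eq_zero_add]
    have h1 : (2 * ((0 : ℕ) : ℝ) + 1) * q 0 * (1 - e) ^ 0 * S 0 = p 0 * (X.card : ℝ) ^ 2 := by
      rw [hS0, hq0]
      simp
    rw [h1]
    have h2 : ∑' k : ℕ, (2 * ((k + 1 : ℕ) : ℝ) + 1) * q (k + 1) * (1 - e) ^ (k + 1) * S (k + 1)
        ≤ 0 := by
      refine tsum_nonpos fun k => ?_
      rcases Nat.lt_or_ge t (k + 1) with hk | hk
      · have h3 : q (k + 1) ≤ 0 := by
          apply hneg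
          rw [he]
          have h4 : ((t : ℝ) + 1) ≤ ((k + 1 : ℕ) : ℝ) := by exact_mod_cast hk
          rw [div_mul_eq_mul_div, le_div_iff₀ htp]
          exact mul_le_mul_of_nonneg_left h4 hy.le
        have h5 : 0 ≤ S (k + 1) := by
          have h6 := pd X (fun _ => (1 : ℝ)) (fun x : E3 => x) hXn (k + 1)
          simpa [hS] using h6
        have h7 : 0 ≤ (2 * ((k + 1 : ℕ) : ℝ) + 1) := by positivity
        have h8 : 0 ≤ (1 - e) ^ (k + 1) := pow_nonneg hr0 _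
        have h9 : (2 * ((k + 1 : ℕ) : ℝ) + 1) * q (k + 1) * (1 - e) ^ (k + 1) * S (k + 1) =
            q (k + 1) * ((2 * ((k + 1 : ℕ) : ℝ) + 1) * (1 - e) ^ (k + 1) * S (k + 1)) := by ring
        rw [h9]
        exact mul_nonpos_of_nonpos_of_nonneg h3 (mul_nonneg (mul_nonneg h7 h8) h5)
      · have h3 : S (k + 1) = 0 := by
          rw [hS]
          simp only
          exact Finset.sum_eq_zero fun x hx =>
            design_zero hX (hXn x hx) (Nat.succ_le_succ (Nat.zero_le k)) hk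
        rw [h3, mul_zero]
    linarith
  -- conclusion
  have hN : (0 : ℝ) < X.card := by exact_mod_cast hXne.card_pos
  have h1 : (X.card : ℝ) * F 1 ≤ (X.card : ℝ) * (p 0 * X.card) := by
    have := hlow.trans (htot.le.trans hupp)
    calc (X.card : ℝ) * F 1 ≤ p 0 * (X.card : ℝ) ^ 2 := this
      _ = (X.card : ℝ) * (p 0 * X.card) := by ring
  have h2 : F 1 ≤ p 0 * X.card := le_of_mul_le_mul_left h1 hN
  have h3 : κ * (p 0 * y0 ^ 2) ≤ e ^ 2 * (p 0 * X.card) :=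
    hF1.trans (mul_le_mul_of_nonneg_left h2 (sq_nonneg _))
  have h4 : e ^ 2 * ((t : ℝ) + 1) ^ 2 = y0 ^ 2 := by
    rw [← mul_pow, he, div_mul_cancel₀ _ htp.ne']
  have h5 : κ * ((t : ℝ) + 1) ^ 2 ≤ X.card := by
    have h6 : (p 0 * e ^ 2) * (κ * ((t : ℝ) + 1) ^ 2) ≤ (p 0 * e ^ 2) * X.card := by
      calc (p 0 * e ^ 2) * (κ * ((t : ℝ) + 1) ^ 2) = κ * (p 0 * (e ^ 2 * ((t : ℝ) + 1) ^ 2)) := by
            ring
        _ = κ * (p 0 * y0 ^ 2) := by rw [h4]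
        _ ≤ e ^ 2 * (p 0 * X.card) := h3
        _ = (p 0 * e ^ 2) * X.card := by ring
    exact le_of_mul_le_mul_left h6 (by positivity)
  refine le_trans (mul_le_mul_of_nonneg_left ?_ hκ0) h5
  exact pow_le_pow_left₀ (Nat.cast_nonneg t) (by linarith) 2

end Pool.Agent.Helper76.DL
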