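import Pool.Agent.Helper76.DL.Fs

/-!
Positive definiteness of the Legendre kernels.

PROOF.  `PL_one`: induction.
`pd`: `f = ∑ i, c i • Q (x i) k` is homogeneous and harmonic, `0 ≤ fs f f` and
`fs f f = ∑ i, c i * fs (Q (x i) k) f = (∏ (2j+1)) ∑ i, c i * ev f (x i)`,
`ev f (x i) = ∑ j, c j * PL k (inner (x j) (x i))` (`Q_ev`).
`PL_abs_le`: for `|u| ≤ 1` choose unit vectors `x, y` with `inner x y = u`
(`!₂[1,0,0]`, `!₂[u, √(1-u²), 0]`) and use `pd` with `c = (1, 1)` and `c = (1, -1)` and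
`PL k 1 = 1`.
-/

set_option autoImplicit false

namespace Pool.Agent.Helper76.DL

open Pool.Agent.Helper83.SD

theorem PL_one (k : ℕ) : PL k 1 = 1 := by
  induction k using Nat.twoStepInduction with
  | zero => rfl
  | one => rfl
  | more k h0 h1 =>
    have hk : (k : ℝ) + 2 ≠ 0 := by positivity
    show ((2 * (k : ℝ) + 3) * 1 * PL (k + 1) 1 - ((k : ℝ) + 1) * PL k 1) / ((k : ℝ) + 2) = 1
    rw [h0, h1, div_eq_one_iff_eq hk]
    ring

theorem fs_eq_pos (p q : Poly) (T : Finset (Fin 3 →₀ ℕ)) (hT : p.support ⊆ T) :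
    fs p q = ∑ s ∈ T, ((∏ i, (s i).factorial : ℕ) : ℝ) * (p.coeff s * q.coeff s) := by
  unfold fs
  refine Finset.sum_subset hT fun s _ hs => ?_
  rw [MvPolynomial.notMem_support_iff.1 hs]
  ring

theorem fs_sum_left_pos {ι : Type*} (s : Finset ι) (c : ι → ℝ) (P : ι → Poly) (q : Poly) :
    fs (∑ i ∈ s, c i • P i) q = ∑ i ∈ s, c i * fs (P i) q := by
  classical
  set T : Finset (Fin 3 →₀ ℕ) :=
    (∑ i ∈ s, c i • P i).support ∪ s.biUnion fun i => (P i).support with hTdef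
  rw [fs_eq_pos _ q T Finset.subset_union_left]
  have h1 : ∀ i ∈ s, c i * fs (P i) q =
      ∑ m ∈ T, c i * (((∏ j, (m j).factorial : ℕ) : ℝ) * ((P i).coeff m * q.coeff m)) := by
    intro i hi
    rw [fs_eq_pos (P i) q T ?_, Finset.mul_sum]
    exact (Finset.subset_biUnion_of_mem (fun i => (P i).support) hi).trans
      Finset.subset_union_right
  rw [Finset.sum_congr rfl h1, Finset.sum_comm]
  refine Finset.sum_congr rfl fun m _ => ?_
  rw [MvPolynomial.coeff_sum, Finset.sum_mul, Finset.mul_sum]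
  refine Finset.sum_congr rfl fun i _ => ?_
  rw [MvPolynomial.coeff_smul, smul_eq_mul]
  ring

theorem lap_sum_pos {ι : Type*} (s : Finset ι) (c : ι → ℝ) (P : ι → Poly)
    (h : ∀ i ∈ s, lap (P i) = 0) : lap (∑ i ∈ s, c i • P i) = 0 := by
  have h1 : lap (∑ i ∈ s, c i • P i) = ∑ i ∈ s, c i • lap (P i) := by
    unfold lap
    simp only [map_sum, Finset.smul_sum]
    rw [Finset.sum_comm]
    refine Finset.sum_congr rfl fun i _ => Finset.sum_congr rfl fun a _ => ?_
    rw [Derivation.map_smul, Derivation.map_smul]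
  rw [h1]
  refine Finset.sum_eq_zero fun i hi => ?_
  rw [h i hi, smul_zero]

theorem pd {ι : Type*} (s : Finset ι) (c : ι → ℝ) (x : ι → E3) (hx : ∀ i ∈ s, ‖x i‖ = 1)
    (k : ℕ) : 0 ≤ ∑ i ∈ s, ∑ j ∈ s, c i * c j * PL k (inner ℝ (x i) (x j)) := by
  set f : Poly := ∑ i ∈ s, c i • Q (x i) k with hf
  have hhom : f.IsHomogeneous k := by
    refine MvPolynomial.IsHomogeneous.sum s _ k fun i _ => ?_
    rw [MvPolynomial.smul_eq_C_mul]
    exact (Q_hom (x i) k).C_mul (c i)
  have hlap : lap f = 0 := lap_sum_pos s c _ fun i hi => Q_lap (hx i hi) k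
  have h0 := fs_nonneg f
  have h1 : fs f f = ∑ i ∈ s, c i * fs (Q (x i) k) f := by
    conv_lhs => rw [hf]
    exact fs_sum_left_pos s c _ f
  have h2 : ∀ i ∈ s, c i * fs (Q (x i) k) f =
      (∏ j ∈ Finset.range k, (2 * (j : ℝ) + 1)) *
        ∑ j ∈ s, c i * c j * PL k (inner ℝ (x i) (x j)) := by
    intro i hi
    rw [fs_repr (x i) k f hhom hlap, hf, ev_sum, Finset.mul_sum, Finset.mul_sum, Finset.mul_sum]
    refine Finset.sum_congr rfl fun j hj => ?_
    rw [ev_smul, Q_ev (x j) (hx i hi) k, real_inner_comm (x i) (x j)]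
    ring
  rw [h1, Finset.sum_congr rfl h2, ← Finset.mul_sum] at h0
  have hpos : 0 < ∏ j ∈ Finset.range k, (2 * (j : ℝ) + 1) :=
    Finset.prod_pos fun j _ => by positivity
  exact nonneg_of_mul_nonneg_right h0 hpos

theorem PL_abs_le {u : ℝ} (hu : |u| ≤ 1) (k : ℕ) : |PL k u| ≤ 1 := by
  have hu2 : u ^ 2 ≤ 1 := by
    rw [← sq_abs]
    exact pow_le_one₀ (abs_nonneg u) hu
  have hs : √(1 - u ^ 2) ^ 2 = 1 - u ^ 2 := Real.sq_sqrt (by linarith)
  set x : Bool → E3 := fun b => bif b then !₂[1, 0, 0] else !₂[u, √(1 - u ^ 2), 0] with hxdef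
  have hxt : x true = !₂[1, 0, 0] := rfl
  have hxf : x false = !₂[u, √(1 - u ^ 2), 0] := rfl
  have i1 : inner ℝ (x true) (x true) = (1 : ℝ) := by
    rw [hxt, PiLp.inner_apply]
    simp [Fin.sum_univ_three]
  have i2 : inner ℝ (x false) (x false) = (1 : ℝ) := by
    rw [hxf, PiLp.inner_apply]
    simp [Fin.sum_univ_three]
    nlinarith [hs]
  have i3 : inner ℝ (x true) (x false) = u := by
    rw [hxt, hxf, PiLp.inner_apply]
    simp [Fin.sum_univ_three]
  have i4 : inner ℝ (x false) (x true) = u := by rw [real_inner_comm, i3]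
  have hn : ∀ b ∈ (Finset.univ : Finset Bool), ‖x b‖ = 1 := by
    intro b _
    have h : ∀ v : E3, inner ℝ v v = (1 : ℝ) → ‖v‖ = 1 := by
      intro v hv
      rw [real_inner_self_eq_norm_sq] at hv
      nlinarith [norm_nonneg v]
    cases b
    · exact h _ i2
    · exact h _ i1
  have a1 := pd Finset.univ (fun _ : Bool => (1 : ℝ)) x hn k
  have a2 := pd Finset.univ (fun b : Bool => bif b then (1 : ℝ) else -1) x hn k
  simp only [Fintype.sum_bool, i1, i2, i3, i4, PL_one, cond_true, cond_false] at a1 a2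
  rw [abs_le]
  constructor <;> linarith

end Pool.Agent.Helper76.DL
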