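import Pool.Agent.Helper76.DL.Defs

/-!
The Legendre series (the bound `|P_k(u)| ≤ 1` is given as an argument).

PROOF.  `summ`: comparison with `3 (k+1)^(m+1) r^k` (`summable_pow_mul_geometric_of_norm_lt_one`).
`FF_zero`: let `S = ∑ P_k r^k`, `S1 = ∑ k P_k r^k`.  The recursion
`(k+1) P_{k+1} = (2k+1) u P_k - k P_{k-1}` times `r^{k+1}` summed over `k ≥ 0` gives
`S1 = u r (2 S1 + S) - r² (S1 + S)`, i.e. `D S1 = r (u - r) S`; and `r S' = S1`, so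
`(S √D)' = 0` on `(0,1)` (`D' = 2 (r - u)`, `D ≥ (1-r)² > 0`), the limit at `0` is `1`, so
`S = 1/√D` and `FF 0 = 2 S1 + S = S (1 - r²)/D`.
`FF_deriv`: termwise differentiation of the power series, `r d/dr` multiplies the coefficients
by `k` (`hasDerivAt_tsum_of_isPreconnected` on an interval `(0, ρ)`, `r < ρ < 1`).
-/

set_option autoImplicit false

namespace Pool.Agent.Helper76.DL

theorem summ {u : ℝ} (hP : ∀ k, |PL k u| ≤ 1) (m : ℕ) {r : ℝ} (h0 : 0 ≤ r) (h1 : r < 1) :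
    Summable fun k : ℕ => (2 * (k : ℝ) + 1) * (k : ℝ) ^ m * r ^ k * PL k u := by
  have hr : ‖r‖ < 1 := by rw [Real.norm_of_nonneg h0]; exact h1
  have s1 : Summable fun k : ℕ => 2 * ((k : ℝ) ^ (m + 1) * r ^ k) + (k : ℝ) ^ m * r ^ k :=
    ((summable_pow_mul_geometric_of_norm_lt_one (m + 1) hr).mul_left 2).add
      (summable_pow_mul_geometric_of_norm_lt_one m hr)
  refine Summable.of_norm_bounded s1 ?_
  intro k
  have e : ‖(2 * (k : ℝ) + 1) * (k : ℝ) ^ m * r ^ k * PL k u‖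
      = (2 * (k : ℝ) + 1) * (k : ℝ) ^ m * r ^ k * |PL k u| := by
    rw [norm_mul, Real.norm_of_nonneg (by positivity), Real.norm_eq_abs]
  rw [e]
  calc (2 * (k : ℝ) + 1) * (k : ℝ) ^ m * r ^ k * |PL k u|
      ≤ (2 * (k : ℝ) + 1) * (k : ℝ) ^ m * r ^ k * 1 :=
        mul_le_mul_of_nonneg_left (hP k) (by positivity)
    _ = 2 * ((k : ℝ) ^ (m + 1) * r ^ k) + (k : ℝ) ^ m * r ^ k := by ring

private theorem pow_pred_mul (m k : ℕ) {s : ℝ} (hs : s ≠ 0) :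
    (k : ℝ) ^ m * ((k : ℝ) * s ^ (k - 1)) = (k : ℝ) ^ (m + 1) * s ^ k / s := by
  rcases k with _ | k
  · simp
  · rw [Nat.add_sub_cancel, eq_div_iff hs]
    ring

theorem FF_deriv {u : ℝ} (hP : ∀ k, |PL k u| ≤ 1) (m : ℕ) {r : ℝ} (h0 : 0 < r) (h1 : r < 1) :
    HasDerivAt (fun s => FF m s u) (FF (m + 1) r u / r) r := by
  obtain ⟨ρ, hρ1, hρ2⟩ := exists_between h1
  have hρ0 : 0 < ρ := h0.trans hρ1
  have hρn : ‖ρ‖ < 1 := by rw [Real.norm_of_nonneg hρ0.le]; exact hρ2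
  have sB : Summable fun k : ℕ => (2 * ((k : ℝ) ^ (m + 1 + 1) * ρ ^ k)
      + (k : ℝ) ^ (m + 1) * ρ ^ k) / ρ :=
    (((summable_pow_mul_geometric_of_norm_lt_one (m + 1 + 1) hρn).mul_left 2).add
      (summable_pow_mul_geometric_of_norm_lt_one (m + 1) hρn)).div_const ρ
  have key : HasDerivAt (fun s => ∑' k : ℕ, (2 * (k : ℝ) + 1) * (k : ℝ) ^ m * s ^ k * PL k u)
      (∑' k : ℕ, (2 * (k : ℝ) + 1) * (k : ℝ) ^ m * ((k : ℝ) * r ^ (k - 1)) * PL k u) r := by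
    refine hasDerivAt_tsum_of_isPreconnected (t := Set.Ioo 0 ρ) (y₀ := r)
      (g := fun (k : ℕ) (s : ℝ) => (2 * (k : ℝ) + 1) * (k : ℝ) ^ m * s ^ k * PL k u)
      (g' := fun (k : ℕ) (s : ℝ) =>
        (2 * (k : ℝ) + 1) * (k : ℝ) ^ m * ((k : ℝ) * s ^ (k - 1)) * PL k u)
      sB isOpen_Ioo isPreconnected_Ioo ?_ ?_ ⟨h0, hρ1⟩ (summ hP m h0.le h1) ⟨h0, hρ1⟩
    · intro k s _
      exact ((hasDerivAt_pow k s).const_mul _).mul_const _
    · intro k s hs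
      have hs0 : 0 < s := hs.1
      have e : ‖(2 * (k : ℝ) + 1) * (k : ℝ) ^ m * ((k : ℝ) * s ^ (k - 1)) * PL k u‖
          = (2 * (k : ℝ) + 1) * (k : ℝ) ^ m * ((k : ℝ) * s ^ (k - 1)) * |PL k u| := by
        rw [norm_mul, Real.norm_of_nonneg (by positivity), Real.norm_eq_abs]
      have e2 : s ^ (k - 1) ≤ ρ ^ (k - 1) := pow_le_pow_left₀ hs0.le hs.2.le _
      calc ‖(2 * (k : ℝ) + 1) * (k : ℝ) ^ m * ((k : ℝ) * s ^ (k - 1)) * PL k u‖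
          = (2 * (k : ℝ) + 1) * (k : ℝ) ^ m * ((k : ℝ) * s ^ (k - 1)) * |PL k u| := e
        _ ≤ (2 * (k : ℝ) + 1) * (k : ℝ) ^ m * ((k : ℝ) * s ^ (k - 1)) * 1 :=
            mul_le_mul_of_nonneg_left (hP k) (by positivity)
        _ ≤ (2 * (k : ℝ) + 1) * (k : ℝ) ^ m * ((k : ℝ) * ρ ^ (k - 1)) * 1 := by gcongr
        _ = (2 * (k : ℝ) + 1) * ((k : ℝ) ^ m * ((k : ℝ) * ρ ^ (k - 1))) := by ring
        _ = (2 * (k : ℝ) + 1) * ((k : ℝ) ^ (m + 1) * ρ ^ k / ρ) := by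
            rw [pow_pred_mul m k hρ0.ne']
        _ = (2 * ((k : ℝ) ^ (m + 1 + 1) * ρ ^ k) + (k : ℝ) ^ (m + 1) * ρ ^ k) / ρ := by ring
  have e3 : (∑' k : ℕ, (2 * (k : ℝ) + 1) * (k : ℝ) ^ m * ((k : ℝ) * r ^ (k - 1)) * PL k u)
      = FF (m + 1) r u / r := by
    unfold FF
    rw [← tsum_div_const]
    refine tsum_congr fun k => ?_
    calc (2 * (k : ℝ) + 1) * (k : ℝ) ^ m * ((k : ℝ) * r ^ (k - 1)) * PL k u
        = (2 * (k : ℝ) + 1) * ((k : ℝ) ^ m * ((k : ℝ) * r ^ (k - 1))) * PL k u := by ring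
      _ = (2 * (k : ℝ) + 1) * ((k : ℝ) ^ (m + 1) * r ^ k / r) * PL k u := by
          rw [pow_pred_mul m k h0.ne']
      _ = (2 * (k : ℝ) + 1) * (k : ℝ) ^ (m + 1) * r ^ k * PL k u / r := by ring
  rw [e3] at key
  exact key

end Pool.Agent.Helper76.DL
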